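import Pool.Agent.X98.FL.MinBasis
import Pool.Agent.W432.WB.Main

set_option autoImplicit false

open Polynomial

namespace Pool.Agent.X98.FL

open Pool.Agent.W432.PC (T Tc T_eq T_monic T_ne T_natDegree Tc_monic Tc_eval_ne Tc_eval_eq_zero
  T_eval_ne)
open Pool.Agent.W432.WB (resMat infMat WDeg sum_eval_div RedExp)

variable {k : Type*} [Field k] {m n s : ℕ}

/-- The operator `B g - T g'`. -/
noncomputable def nab (α : Fin m → k) (B : Matrix (Fin n) (Fin n) k[X]) (g : Fin n → k[X]) :
    Fin n → k[X] :=
  fun i => B.mulVec g i - T α * derivative (g i)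

lemma nab_smul (α : Fin m → k) (B : Matrix (Fin n) (Fin n) k[X]) (u : k[X]) (g : Fin n → k[X]) :
    nab α B (u • g) = u • nab α B g - (T α * derivative u) • g := by
  ext1 i
  simp only [nab, Matrix.mulVec_smul, Pi.smul_apply, Pi.sub_apply, smul_eq_mul, derivative_mul]
  ring

lemma nab_sum {ι : Type*} (t : Finset ι) (α : Fin m → k) (B : Matrix (Fin n) (Fin n) k[X])
    (g : ι → Fin n → k[X]) : nab α B (∑ j ∈ t, g j) = ∑ j ∈ t, nab α B (g j) := by
  ext1 i
  simp only [nab, Finset.sum_apply, Matrix.mulVec_sum, derivative_sum, Finset.mul_sum,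
    Finset.sum_sub_distrib]

/-- The saturated module generated by a family. -/
def sat (g : Fin s → Fin n → k[X]) : Submodule k[X] (Fin n → k[X]) where
  carrier := {x | ∃ q : k[X], q ≠ 0 ∧ ∃ u : Fin s → k[X], q • x = ∑ j, u j • g j}
  add_mem' := by
    rintro x y ⟨q, hq, u, hu⟩ ⟨q', hq', u', hu'⟩
    refine ⟨q * q', mul_ne_zero hq hq', fun j => q' * u j + q * u' j, ?_⟩
    have h1 : (q * q') • (x + y) = q' • (q • x) + q • (q' • y) := by
      rw [smul_add, mul_smul, mul_smul, smul_comm q q' x]
    rw [h1, hu, hu', Finset.smul_sum, Finset.smul_sum, ← Finset.sum_add_distrib]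
    refine Finset.sum_congr rfl fun j _ => ?_
    rw [add_smul, mul_smul, mul_smul]
  zero_mem' := ⟨1, one_ne_zero, 0, by simp⟩
  smul_mem' := by
    rintro a x ⟨q, hq, u, hu⟩
    refine ⟨q, hq, fun j => a * u j, ?_⟩
    simp only [← smul_smul, ← Finset.smul_sum]
    rw [← hu, smul_comm]

lemma mem_sat {g : Fin s → Fin n → k[X]} {x : Fin n → k[X]} :
    x ∈ sat g ↔ ∃ q : k[X], q ≠ 0 ∧ ∃ u : Fin s → k[X], q • x = ∑ j, u j • g j := Iff.rfl

lemma sat_self (g : Fin s → Fin n → k[X]) (j : Fin s) : g j ∈ sat g := by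
  classical
  refine ⟨1, one_ne_zero, Pi.single j 1, ?_⟩
  rw [Finset.sum_eq_single j]
  · simp
  · intro i _ hi
    simp [hi]
  · intro h; exact absurd (Finset.mem_univ _) h

lemma sat_of_smul {g : Fin s → Fin n → k[X]} {x : Fin n → k[X]} {a : k[X]} (ha : a ≠ 0)
    (h : a • x ∈ sat g) : x ∈ sat g := by
  obtain ⟨q, hq, u, hu⟩ := h
  exact ⟨q * a, mul_ne_zero hq ha, u, by rw [← smul_smul]; exact hu⟩

lemma sat_trans {s' : ℕ} {g : Fin s → Fin n → k[X]} {g' : Fin s' → Fin n → k[X]}
    (h : ∀ j, g j ∈ sat g') {x : Fin n → k[X]} (hx : x ∈ sat g) : x ∈ sat g' := by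
  obtain ⟨q, hq, u, hu⟩ := hx
  apply sat_of_smul hq
  rw [hu]
  exact Submodule.sum_mem _ fun j _ => Submodule.smul_mem _ _ (h j)

/-- Stability. -/
lemma nab_mem {α : Fin m → k} {B : Matrix (Fin n) (Fin n) k[X]} {g : Fin s → Fin n → k[X]}
    (h : ∀ j, nab α B (g j) ∈ sat g) {x : Fin n → k[X]} (hx : x ∈ sat g) : nab α B x ∈ sat g := by
  obtain ⟨q, hq, u, hu⟩ := id hx
  apply sat_of_smul hq
  have h1 : q • nab α B x = nab α B (q • x) + (T α * derivative q) • x := by
    rw [nab_smul]; abel
  rw [h1, hu, nab_sum]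
  refine Submodule.add_mem _ (Submodule.sum_mem _ fun j _ => ?_) (Submodule.smul_mem _ _ hx)
  rw [nab_smul]
  exact Submodule.sub_mem _ (Submodule.smul_mem _ _ (h j)) (Submodule.smul_mem _ _ (sat_self g j))

/-- An independent family of maximal size spans. -/
lemma sat_swap {g g' : Fin s → Fin n → k[X]} (hi : LinearIndependent k[X] g')
    (h : ∀ j, g' j ∈ sat g) (j : Fin s) : g j ∈ sat g' := by
  classical
  choose q hq u hu using h
  let U : Matrix (Fin s) (Fin s) k[X] := Matrix.of u
  have hdet : U.det ≠ 0 := by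
    intro h0
    obtain ⟨c, hc, hcU⟩ := Matrix.exists_vecMul_eq_zero_iff.mpr h0
    apply hc
    have h1 : ∑ j, (c j * q j) • g' j = 0 := by
      simp only [← smul_smul, hu, Finset.smul_sum]
      rw [Finset.sum_comm]
      refine Finset.sum_eq_zero fun l _ => ?_
      simp only [smul_smul, ← Finset.sum_smul]
      have h2 := congrFun hcU l
      rw [Matrix.vecMul, dotProduct, Pi.zero_apply] at h2
      have h3 : ∑ j, c j * u j l = 0 := h2
      rw [h3, zero_smul]
    ext1 j
    exact (mul_eq_zero.mp (Fintype.linearIndependent_iff.mp hi _ h1 j)).resolve_right (hq j)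
  refine ⟨U.det, hdet, fun l => U.adjugate j l * q l, ?_⟩
  have h1 : ∑ l, (U.adjugate j l * q l) • g' l = ∑ i, (∑ l, U.adjugate j l * U l i) • g i := by
    simp only [← smul_smul, hu, Finset.smul_sum, Finset.sum_smul]
    rw [Finset.sum_comm]
    refine Finset.sum_congr rfl fun i _ => Finset.sum_congr rfl fun l _ => ?_
    rfl
  rw [h1]
  have h2 : ∀ i, ∑ l, U.adjugate j l * U l i = U.det * (1 : Matrix (Fin s) (Fin s) k[X]) j i := by
    intro i
    rw [← Matrix.mul_apply, Matrix.adjugate_mul, Matrix.smul_apply, smul_eq_mul]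
  simp only [h2]
  rw [Finset.sum_eq_single j]
  · simp
  · intro i _ hi
    rw [Matrix.one_apply_ne (Ne.symm hi), mul_zero, zero_smul]
  · intro h; exact absurd (Finset.mem_univ _) h

/-- The trace of the restriction to an invariant subspace. -/
lemma trace_int [IsAlgClosed k] {A : Matrix (Fin n) (Fin n) k} {N : ℕ} {mu : Fin n → ℤ}
    (hA : RedExp N A.charpoly mu) (P : Matrix (Fin n) (Fin s) k)
    (hP : ∀ c : Fin s → k, P.mulVec c = 0 → c = 0) (Λ : Matrix (Fin s) (Fin s) k)
    (h : A * P = P * Λ) :
    ∃ a : ℤ, a.natAbs ≤ s * ∑ l, (mu l).natAbs ∧ (N : k) * Λ.trace = a := by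
  classical
  have hroot : ∀ l ∈ Λ.charpoly.roots, ∃ i, (N : k) * l = (mu i : k) := by
    intro l hl
    rw [mem_roots (Matrix.charpoly_monic Λ).ne_zero, IsRoot.def, Matrix.eval_charpoly,
      ← Matrix.exists_mulVec_eq_zero_iff] at hl
    obtain ⟨c, hc, hc'⟩ := hl
    rw [Matrix.sub_mulVec, sub_eq_zero] at hc'
    have h1 : Λ.mulVec c = l • c := by
      rw [← hc']
      ext i
      simp
    have h2 : A.mulVec (P.mulVec c) = l • P.mulVec c := by
      rw [Matrix.mulVec_mulVec, h, ← Matrix.mulVec_mulVec, h1, Matrix.mulVec_smul]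
    have h3 : A.charpoly.eval l = 0 := by
      rw [Matrix.eval_charpoly, ← Matrix.exists_mulVec_eq_zero_iff]
      refine ⟨P.mulVec c, fun h0 => hc (hP c h0), ?_⟩
      rw [Matrix.sub_mulVec, h2, sub_eq_zero]
      ext i
      rw [Matrix.scalar_apply, Matrix.mulVec_diagonal]
      rfl
    have h4 := congrArg (fun q => q.eval l) hA
    simp only [eval_mul, h3, mul_zero, eval_prod, eval_sub, eval_C, eval_X] at h4
    obtain ⟨i, -, hi⟩ := Finset.prod_eq_zero_iff.mp h4.symm
    exact ⟨i, sub_eq_zero.mp hi⟩
  have hsum : ∀ S : Multiset k, (∀ l ∈ S, ∃ i, (N : k) * l = (mu i : k)) →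
      ∃ a : ℤ, a.natAbs ≤ Multiset.card S * ∑ l, (mu l).natAbs ∧ (N : k) * S.sum = a := by
    intro S
    induction S using Multiset.induction_on with
    | empty => exact fun _ => ⟨0, by simp, by simp⟩
    | cons l S ih =>
      intro hS
      obtain ⟨a, ha, ha'⟩ := ih fun l hl => hS l (Multiset.mem_cons_of_mem hl)
      obtain ⟨i, hi⟩ := hS l (Multiset.mem_cons_self l S)
      refine ⟨mu i + a, ?_, ?_⟩
      · rw [Multiset.card_cons, add_mul, one_mul]
        have h1 : (mu i).natAbs ≤ ∑ l, (mu l).natAbs :=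
          Finset.single_le_sum (f := fun l => (mu l).natAbs) (fun _ _ => Nat.zero_le _)
            (Finset.mem_univ i)
        have h2 := Int.natAbs_add_le (mu i) a
        omega
      · rw [Multiset.sum_cons, mul_add, hi, ha']
        push_cast
        ring
  obtain ⟨a, ha, ha'⟩ := hsum _ hroot
  refine ⟨a, ?_, ?_⟩
  · have h1 : Multiset.card Λ.charpoly.roots = s := by
      have h2 := (IsAlgClosed.splits Λ.charpoly).natDegree_eq_card_roots
      rw [Matrix.charpoly_natDegree_eq_dim, Fintype.card_fin] at h2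
      exact h2.symm
    rwa [h1] at ha
  · rw [Matrix.trace_eq_sum_roots_charpoly]
    exact ha'

/-- The operator raises the weighted degree by at most `m - 1`. -/
lemma Bd.nab {α : Fin m → k} (hm : 0 < m) {B : Matrix (Fin n) (Fin n) k[X]} {u : Fin n → ℕ}
    (hB : WDeg m B u) {d : ℕ} {g : Fin n → k[X]} (hg : Bd u d g) :
    Bd u (m - 1 + d) (nab α B g) ∧
      lev u (m - 1 + d) (nab α B g) = (infMat m B u).mulVec (lev u d g) - (d : k) • lev u d g := by
  have hkey : ∀ i t, m + d ≤ t + 1 + u i → (FL.nab α B g i).coeff t =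
      if t + 1 + u i = m + d then (infMat m B u).mulVec (lev u d g) i - d * lev u d g i else 0 := by
    intro i t ht
    have hXg : (X ^ u i * g i).natDegree ≤ d := by
      by_cases h0 : u i ≤ d
      · refine natDegree_mul_le.trans ?_
        rw [natDegree_X_pow]
        have := hg.natDegree_le i
        omega
      · rw [hg.eq_zero (by omega), mul_zero, natDegree_zero]
        exact Nat.zero_le _
    have hlevi : (X ^ u i * g i).coeff d = lev u d g i := by
      rw [lev]
      split_ifs with h0
      · have : d = (d - u i) + u i := by omega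
        conv_lhs => rw [this]
        rw [coeff_X_pow_mul]
      · rw [hg.eq_zero (by omega), mul_zero, coeff_zero]
    have h1 : X ^ (1 + u i) * FL.nab α B g i = ∑ l, (X ^ (1 + u i) * B i l) * g l -
        (T α * (X * derivative (X ^ u i * g i)) - T α * (C (u i : k) * (X ^ u i * g i))) := by
      have h2 : X * derivative (X ^ u i * g i) = C (u i : k) * (X ^ u i * g i) +
          X ^ (1 + u i) * derivative (g i) := by
        rw [derivative_mul, derivative_X_pow]
        rcases Nat.eq_zero_or_pos (u i) with h3 | h3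
        · rw [h3]; simp
        · have h4 : u i = (u i - 1) + 1 := by omega
          have h5 : (X : k[X]) ^ u i = X ^ (u i - 1) * X := by
            conv_lhs => rw [h4]
            rw [pow_succ]
          rw [pow_add, pow_one]
          simp only [C_eq_natCast]
          linear_combination -((u i : k[X])) * g i * h5
      rw [h2, FL.nab, Matrix.mulVec, dotProduct, mul_sub, Finset.mul_sum]
      simp only [mul_assoc]
      ring
    have h2 : (FL.nab α B g i).coeff t =
        (X ^ (1 + u i) * FL.nab α B g i).coeff (t + (1 + u i)) := by rw [coeff_X_pow_mul]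
    rw [h2, h1, coeff_sub, coeff_sub, finsetSum_coeff]
    have hTd : (T α).natDegree ≤ m := (T_natDegree (α := α)).le
    have hder : (X * derivative (X ^ u i * g i)).natDegree ≤ d := by
      rcases Nat.eq_zero_or_pos (X ^ u i * g i).natDegree with h3 | h3
      · rw [natDegree_eq_zero] at h3
        obtain ⟨c, hc⟩ := h3
        rw [← hc]; simp
      · refine natDegree_mul_le.trans ?_
        have h4 := natDegree_derivative_le (X ^ u i * g i)
        rw [natDegree_X]
        omega
    have hcoefder : (X * derivative (X ^ u i * g i)).coeff d = d * lev u d g i := by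
      rcases Nat.eq_zero_or_pos d with h3 | h3
      · rw [h3]; simp
      · have h4 : d = (d - 1) + 1 := by omega
        conv_lhs => rw [h4]
        rw [coeff_X_mul, coeff_derivative, ← h4, hlevi]
        have h5 : ((d - 1 : ℕ) : k) + 1 = (d : k) := by
          rw [← Nat.cast_add_one, ← h4]
        rw [h5, mul_comm]
    by_cases htd : t + 1 + u i = m + d
    · rw [if_pos htd]
      have ht' : t + (1 + u i) = m + d := by omega
      rw [ht', coeff_mul_add_eq_of_natDegree_le hTd hder,
        coeff_mul_add_eq_of_natDegree_le hTd ((natDegree_C_mul_le _ _).trans hXg), coeff_C_mul,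
        hlevi, hcoefder]
      have h6 := (T_monic (α := α)).coeff_natDegree
      rw [T_natDegree] at h6
      rw [h6]
      have h7 : ∀ l, (X ^ (1 + u i) * B i l * g l).coeff (m + d) =
          (X ^ (1 + u i) * B i l).coeff (m + u l) * lev u d g l := by
        intro l
        by_cases hl : u l ≤ d
        · have h8 : m + d = (m + u l) + (d - u l) := by omega
          rw [h8, coeff_mul_add_eq_of_natDegree_le (hB i l) (hg.natDegree_le l), lev, if_pos hl]
        · rw [hg.eq_zero (by omega), mul_zero, coeff_zero, lev, if_neg hl, mul_zero]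
      rw [Finset.sum_congr rfl fun l _ => h7 l]
      have h8 : (infMat m B u).mulVec (lev u d g) i =
          ∑ l, (X ^ (1 + u i) * B i l).coeff (m + u l) * lev u d g l + u i * lev u d g i := by
        rw [Matrix.mulVec, dotProduct]
        simp only [infMat, Matrix.of_apply, add_mul, Finset.sum_add_distrib]
        congr 1
        rw [Finset.sum_eq_single i]
        · rw [if_pos rfl]
        · intro l _ hl
          rw [if_neg (Ne.symm hl), zero_mul]
        · intro h; exact absurd (Finset.mem_univ _) h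
      rw [h8]
      ring
    · rw [if_neg htd]
      have hlt : m + d < t + (1 + u i) := by omega
      rw [coeff_eq_zero_of_natDegree_lt (p := T α * (X * derivative (X ^ u i * g i)))
        (lt_of_le_of_lt (natDegree_mul_le.trans (Nat.add_le_add hTd hder)) hlt),
        coeff_eq_zero_of_natDegree_lt (p := T α * (C (u i : k) * (X ^ u i * g i)))
        (lt_of_le_of_lt (natDegree_mul_le.trans (Nat.add_le_add hTd
          ((natDegree_C_mul_le _ _).trans hXg))) hlt), sub_zero, sub_zero]
      refine Finset.sum_eq_zero fun l _ => ?_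
      by_cases hl : u l ≤ d
      · apply coeff_eq_zero_of_natDegree_lt
        refine lt_of_le_of_lt (natDegree_mul_le.trans (Nat.add_le_add (hB i l)
          (hg.natDegree_le l))) ?_
        omega
      · rw [hg.eq_zero (by omega), mul_zero, coeff_zero]
  refine ⟨fun i t ht => ?_, ?_⟩
  · rw [hkey i t (by omega), if_neg (by omega)]
  · ext1 i
    rw [Pi.sub_apply, Pi.smul_apply, smul_eq_mul]
    by_cases hi : u i ≤ m - 1 + d
    · rw [lev, if_pos hi, hkey i _ (by omega), if_pos (by omega)]
    · have h1 : lev u (m - 1 + d) (FL.nab α B g) i = 0 := by rw [lev, if_neg hi]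
      rw [h1]
      -- the row of the matrix vanishes
      have h2 : lev u d g i = 0 := by rw [lev, if_neg (by omega)]
      rw [h2, mul_zero, sub_zero]
      have h3 : (infMat m B u).mulVec (lev u d g) i = ∑ l, infMat m B u i l * lev u d g l := rfl
      rw [h3]
      symm
      refine Finset.sum_eq_zero fun l _ => ?_
      by_cases hl : u l ≤ d
      · have h4 : infMat m B u i l = 0 := by
          simp only [infMat, Matrix.of_apply]
          have h5 : (X ^ (1 + u i) * B i l).coeff (m + u l) = 0 := by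
            have h6 : (X ^ (1 + u i) * B i l) = B i l * X ^ (1 + u i) := mul_comm _ _
            rw [h6, coeff_mul_X_pow', if_neg (by omega)]
          rw [h5, if_neg (fun h => by subst h; omega), add_zero]
        rw [h4, zero_mul]
      · rw [show lev u d g l = 0 by rw [lev, if_neg hl], mul_zero]

/-- Invariant subspaces of small height have small bases. -/
theorem bound [IsAlgClosed k] {p : ℕ} [CharP k p] (hm : 0 < m) {α : Fin m → k}
    (hα : Function.Injective α) {B : Matrix (Fin n) (Fin n) k[X]} {u : Fin n → ℕ}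
    (hB : WDeg m B u) {N : ℕ} (hN : 0 < N) {mu : Fin m → Fin n → ℤ} {mu' : Fin n → ℤ}
    (hloc : ∀ j, RedExp N (resMat α B j).charpoly (mu j))
    (hinf : RedExp N (infMat m B u).charpoly mu') {A : ℕ}
    (hA : ∑ j, ∑ l, (mu j l).natAbs + ∑ l, (mu' l).natAbs ≤ A)
    (g₀ : Fin s → Fin n → k[X]) (hi₀ : LinearIndependent k[X] g₀)
    (hst : ∀ j, nab α B (g₀ j) ∈ sat g₀) (D₀ : ℕ) (hD₀ : ∀ j, Bd u D₀ (g₀ j))
    (hp : N * (s * D₀) + s * A < p) :
    ∃ (g : Fin s → Fin n → k[X]) (Λ : Matrix (Fin s) (Fin s) k[X]), (∀ j, Bd u (s * A) (g j)) ∧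
      (∀ l j, (Λ l j).natDegree ≤ m - 1 + s * A) ∧ (∀ j, nab α B (g j) = ∑ l, Λ l j • g l) ∧
      (∀ c : Fin s → k, (∀ i, ∑ j, c j * (g j i).eval 0 = 0) → c = 0) := by
  classical
  obtain ⟨g, d, hgV, hgd, hgi, hsum, hlev, hev⟩ := exists_min (sat g₀)
    (fun a x hx => sat_of_smul (X_sub_C_ne_zero a) hx) u g₀ (fun _ => D₀) (sat_self g₀) hD₀ hi₀
  have hsum' : ∑ j, d j ≤ s * D₀ := by
    simpa using hsum
  -- the matrix
  have hex : ∀ j, ∃ w : Fin s → k[X], nab α B (g j) = ∑ l, w l • g l := by
    intro j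
    have h1 : nab α B (g j) ∈ sat g := sat_trans (sat_swap hgi hgV) (nab_mem hst (hgV j))
    obtain ⟨q, hq, w, hw⟩ := h1
    exact exists_coord hev q hq _ w hw
  choose w hw using hex
  let Λ : Matrix (Fin s) (Fin s) k[X] := Matrix.of fun l j => w j l
  have hΛ : ∀ j, nab α B (g j) = ∑ l, Λ l j • g l := hw
  have hdegΛ : ∀ l j, Λ l j = 0 ∨ (Λ l j).natDegree + d l ≤ m - 1 + d j := fun l j =>
    coord_deg hgd hlev (Bd.nab hm hB (hgd j)).1 (hw j) l
  -- the finite points
  have hfin : ∀ i, ∃ a : ℤ, a.natAbs ≤ s * ∑ l, (mu i l).natAbs ∧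
      (N : k) * (((Tc α i).eval (α i))⁻¹ * Λ.trace.eval (α i)) = a := by
    intro i
    have hTi : (T α).eval (α i) = 0 := by
      rw [T_eq (α := α) i]; simp
    obtain ⟨a, ha, ha'⟩ := trace_int (hloc i) (Matrix.of fun t j => (g j t).eval (α i))
      (fun c hc => hev (α i) c fun t => by
        have h1 := congrFun hc t
        rw [Matrix.mulVec, dotProduct, Pi.zero_apply] at h1
        rw [← h1]
        exact Finset.sum_congr rfl fun j _ => mul_comm _ _)
      (((Tc α i).eval (α i))⁻¹ • Λ.map (Polynomial.eval (α i))) (by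
        ext t j
        rw [Matrix.mul_apply, Matrix.mul_apply]
        simp only [resMat, Matrix.smul_apply, Matrix.map_apply, smul_eq_mul, Matrix.of_apply]
        have h1 := congrArg (fun q : k[X] => q.eval (α i)) (congrFun (hΛ j) t)
        simp only [nab, eval_sub, eval_mul, hTi, zero_mul, sub_zero, Matrix.mulVec, dotProduct,
          eval_finsetSum, Finset.sum_apply, Pi.smul_apply, smul_eq_mul] at h1
        calc _ = ((Tc α i).eval (α i))⁻¹ * ∑ l, (B t l).eval (α i) * (g j l).eval (α i) := by
              rw [Finset.mul_sum]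
              exact Finset.sum_congr rfl fun l _ => by ring
          _ = _ := by
              rw [h1, Finset.mul_sum]
              exact Finset.sum_congr rfl fun l _ => by ring)
    refine ⟨a, ha, ?_⟩
    rw [← ha', Matrix.trace_smul, smul_eq_mul]
    congr 2
    simp only [Matrix.trace, Matrix.diag, Matrix.map_apply, eval_finsetSum]
  choose a ha ha' using hfin
  have hdegtr : Λ.trace.natDegree ≤ m - 1 := by
    rw [Matrix.trace]
    refine natDegree_sum_le_of_forall_le _ _ fun j _ => ?_
    rw [Matrix.diag]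
    rcases hdegΛ j j with h1 | h1
    · rw [h1]; simp
    · omega
  have hres := sum_eval_div hα hm hdegtr
  have hsumfin : (N : k) * Λ.trace.coeff (m - 1) = ((∑ i, a i : ℤ) : k) := by
    rw [← hres, Finset.mul_sum]
    push_cast
    exact Finset.sum_congr rfl fun i _ => ha' i
  -- infinity
  obtain ⟨a', ha₁, ha₂⟩ := trace_int hinf (Matrix.of fun t j => lev u (d j) (g j) t)
    (fun c hc => hlev c (by
      rw [← hc]
      ext t
      rw [Finset.sum_apply, Matrix.mulVec, dotProduct]
      refine Finset.sum_congr rfl fun j _ => ?_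
      rw [Pi.smul_apply, smul_eq_mul, Matrix.of_apply, mul_comm]))
    (Matrix.of fun l j => (if d l ≤ m - 1 + d j then (Λ l j).coeff (m - 1 + d j - d l) else 0) +
      if l = j then (d j : k) else 0) (by
      ext t j
      rw [Matrix.mul_apply, Matrix.mul_apply]
      simp only [Matrix.of_apply, mul_add, Finset.sum_add_distrib]
      have h1 := congrFun (Bd.nab (α := α) hm hB (hgd j)).2 t
      rw [hΛ j, lev_sum, Finset.sum_apply, Pi.sub_apply, Pi.smul_apply, smul_eq_mul, Matrix.mulVec,
        dotProduct] at h1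
      have h2 : ∀ l, lev u (m - 1 + d j) (Λ l j • g l) t =
          lev u (d l) (g l) t *
            (if d l ≤ m - 1 + d j then (Λ l j).coeff (m - 1 + d j - d l) else 0) := by
        intro l
        by_cases h0 : Λ l j = 0
        · rw [h0]
          simp [lev]
        · have h3 := (hdegΛ l j).resolve_left h0
          rw [if_pos (by omega)]
          have h4 : m - 1 + d j = (m - 1 + d j - d l) + d l := by omega
          conv_lhs => rw [h4]
          rw [lev_mul (by omega) (hgd l), Pi.smul_apply, smul_eq_mul, mul_comm]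
      rw [Finset.sum_congr rfl fun l _ => h2 l] at h1
      rw [h1]
      have h3 : ∑ l, lev u (d l) (g l) t * (if l = j then (d j : k) else 0) =
          d j * lev u (d j) (g j) t := by
        rw [Finset.sum_eq_single j]
        · rw [if_pos rfl, mul_comm]
        · intro l _ hl
          rw [if_neg hl, mul_zero]
        · intro h; exact absurd (Finset.mem_univ _) h
      rw [h3]
      ring)
  have htr : (Matrix.of fun l j => (if d l ≤ m - 1 + d j then (Λ l j).coeff (m - 1 + d j - d l)
      else 0) + if l = j then (d j : k) else 0 : Matrix (Fin s) (Fin s) k).trace =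
      Λ.trace.coeff (m - 1) + ((∑ j, d j : ℕ) : k) := by
    simp only [Matrix.trace, Matrix.diag, Matrix.of_apply, if_true, finsetSum_coeff,
      Finset.sum_add_distrib, Nat.cast_sum]
    congr 1
    refine Finset.sum_congr rfl fun j _ => ?_
    rw [if_pos (by omega)]
    congr 1
    omega
  rw [htr, mul_add, hsumfin] at ha₂
  -- comparison
  have hzero : (((∑ i, a i) + N * (∑ j, d j : ℕ) - a' : ℤ) : k) = 0 := by
    push_cast at ha₂ ⊢
    linear_combination ha₂
  have hdvd := (CharP.intCast_eq_zero_iff k p _).mp hzero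
  have hab : (∑ i, a i).natAbs + a'.natAbs ≤ s * A := by
    have h1 : (∑ i, a i).natAbs ≤ ∑ i, (a i).natAbs := Int.natAbs_sum_le _ _
    have h2 : ∑ i, (a i).natAbs ≤ ∑ i, s * ∑ l, (mu i l).natAbs :=
      Finset.sum_le_sum fun i _ => ha i
    rw [← Finset.mul_sum] at h2
    calc _ ≤ s * ∑ j, ∑ l, (mu j l).natAbs + s * ∑ l, (mu' l).natAbs := by omega
      _ = s * (∑ j, ∑ l, (mu j l).natAbs + ∑ l, (mu' l).natAbs) := by ring
      _ ≤ s * A := Nat.mul_le_mul_left _ hA
  have hNd : N * ∑ j, d j ≤ N * (s * D₀) := Nat.mul_le_mul_left _ hsum'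
  have heq : (∑ i, a i) + N * (∑ j, d j : ℕ) - a' = 0 := by
    apply Int.eq_zero_of_abs_lt_dvd hdvd
    have h3 : ((N * ∑ j, d j : ℕ) : ℤ) = N * (∑ j, d j : ℕ) := by push_cast; ring
    rw [abs_lt]
    constructor <;> omega
  have hfinal : ∑ j, d j ≤ s * A := by
    have h3 : ((N * ∑ j, d j : ℕ) : ℤ) = N * (∑ j, d j : ℕ) := by push_cast; ring
    have h4 : N * ∑ j, d j ≤ s * A := by omega
    exact (Nat.le_mul_of_pos_left _ hN).trans h4
  have hdj : ∀ j, d j ≤ s * A := fun j =>
    (Finset.single_le_sum (f := d) (fun _ _ => Nat.zero_le _) (Finset.mem_univ j)).trans hfinal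
  refine ⟨g, Λ, fun j => (hgd j).mono (hdj j), fun l j => ?_, hΛ, hev 0⟩
  rcases hdegΛ l j with h1 | h1
  · rw [h1]; simp
  · have := hdj j
    omega

end Pool.Agent.X98.FL
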