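import Pool.Agent.X98.FL.Lift
import Pool.Agent.X98.PC.Final
import Pool.Agent.X98.PC.Alg

set_option autoImplicit false

open Polynomial

namespace Pool.Agent.X98.FL

open Pool.Agent.W432.PC (T Tc T_eq T_monic T_ne T_natDegree T_map ddx ddx_algebraMap)
open Pool.Agent.W432.WB (comp IsFuchs)
open Pool.Agent.X98.PC (ddxHom ddxHom_mul ddxHom_eq ddxHom_algebraMap)

/-- The coefficients of the remainder of `∂ ^ i` under the right division by the monic operator
`∂ ^ s + ∑ j, r j ∂ ^ j` over `k(x)`: the remainder of `∂ ∑ v j ∂ ^ j` is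
`∑ v j' ∂ ^ j + ∑ v (j - 1) ∂ ^ j - v (s - 1) ∑ r j ∂ ^ j`. -/
noncomputable def rem {k : Type*} [Field k] {s : ℕ} (r : Fin s → RatFunc k) :
    ℕ → Fin s → RatFunc k
  | 0 => fun j => if (j : ℕ) = 0 then 1 else 0
  | i + 1 => fun j => ddx k (rem r i j) +
      (if (j : ℕ) = 0 then 0 else rem r i ⟨(j : ℕ) - 1, by omega⟩) -
      rem r i ⟨s - 1, by have := j.2; omega⟩ * r j

/-- The monic operator `∂ ^ s + ∑ j, r j ∂ ^ j` is a right factor of `∑ b i ∂ ^ i` in the ring of
the differential operators over `k(x)`: the remainder of the right division is zero. -/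
def RightFactor (k : Type*) [Field k] {n s : ℕ} (b : Fin (n + 1) → ℤ[X]) (r : Fin s → RatFunc k) :
    Prop :=
  ∀ j, ∑ i : Fin (n + 1), algebraMap k[X] (RatFunc k) ((b i).map (Int.castRingHom k)) *
    rem r i j = 0

section cyc

variable {F : Type*} [Field F] {s : ℕ}

/-- Cyclic vectors. -/
lemma cyclic (D : F → F) (δ : (Fin s → F) → (Fin s → F))
    (hadd : ∀ v w, δ (v + w) = δ v + δ w)
    (hmul : ∀ (a : F) v, δ (a • v) = D a • v + a • δ v) (ρ : ℕ → Fin s → F)
    (hρ : ∀ i, ρ (i + 1) = δ (ρ i)) (hspan : ∀ c : Fin s → F,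
      (∀ i, ∑ j, c j * ρ i j = 0) → c = 0) :
    LinearIndependent F (fun i : Fin s => ρ i) ∧
      ∃ r : Fin s → F, ρ s = -∑ j, r j • ρ j := by
  classical
  have hfin : ∀ t, LinearIndependent F (fun i : Fin t => ρ i) → t ≤ s := by
    intro t ht
    have := ht.fintype_card_le_finrank
    simpa using this
  let P : ℕ → Prop := fun t => LinearIndependent F (fun i : Fin t => ρ i)
  have hP0 : P 0 := linearIndependent_empty_type
  obtain ⟨t, ht, ht'⟩ : ∃ t, P t ∧ ¬ P (t + 1) := by
    by_contra hcon
    push Not at hcon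
    have hall : ∀ t, P t := by
      intro t
      induction t with
      | zero => exact hP0
      | succ t ih => exact hcon t ih
    have := hfin (s + 1) (hall (s + 1))
    omega
  have hsnoc : (fun i : Fin (t + 1) => ρ i) = Fin.snoc (fun i : Fin t => ρ i) (ρ t) := by
    funext i
    refine Fin.lastCases ?_ (fun i => ?_) i
    · simp
    · simp
  have hmem : ρ t ∈ Submodule.span F (Set.range fun i : Fin t => ρ i) := by
    by_contra hcon
    apply ht'
    show LinearIndependent F (fun i : Fin (t + 1) => ρ i)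
    rw [hsnoc, linearIndependent_finSnoc]
    exact ⟨ht, hcon⟩
  set W := Submodule.span F (Set.range fun i : Fin t => ρ i) with hW
  have hδ0 : δ 0 = 0 := by
    have := hadd 0 0
    simpa using this
  have hstab : ∀ v ∈ W, δ v ∈ W := by
    intro v hv
    induction hv using Submodule.span_induction with
    | mem v hv =>
      obtain ⟨i, rfl⟩ := hv
      simp only
      rw [← hρ]
      by_cases hi : (i : ℕ) + 1 = t
      · rw [hi]; exact hmem
      · exact Submodule.subset_span ⟨⟨(i : ℕ) + 1, by omega⟩, rfl⟩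
    | zero => rw [hδ0]; exact W.zero_mem
    | add v w _ _ hv hw => rw [hadd]; exact W.add_mem hv hw
    | smul a v hv' hv =>
      rw [hmul]
      exact W.add_mem (W.smul_mem _ hv') (W.smul_mem _ hv)
  have hall : ∀ i, ρ i ∈ W := by
    intro i
    induction i with
    | zero =>
      rcases Nat.eq_zero_or_pos t with h0 | h0
      · rw [h0] at hmem; exact hmem
      · exact Submodule.subset_span ⟨⟨0, h0⟩, rfl⟩
    | succ i ih => rw [hρ]; exact hstab _ ih
  have htop : W = ⊤ := by
    by_contra hne
    obtain ⟨f, hf0, hf⟩ := Submodule.exists_le_ker_of_lt_top W (lt_top_iff_ne_top.mpr hne)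
    have h1 : ∀ v, f v = ∑ j, f (Pi.single j 1) * v j := by
      intro v
      have h2 : v = ∑ j, v j • (Pi.single j 1 : Fin s → F) := by
        funext l
        simp [Finset.sum_apply, Pi.single_apply]
      conv_lhs => rw [h2]
      rw [map_sum]
      exact Finset.sum_congr rfl fun j _ => by rw [map_smul, smul_eq_mul, mul_comm]
    have h2 := hspan (fun j => f (Pi.single j 1)) fun i => by
      rw [← h1]
      exact hf (hall i)
    apply hf0
    ext v
    rw [LinearMap.comp_apply, LinearMap.zero_comp, LinearMap.zero_apply]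
    exact congrFun h2 v
  have hts : t = s := by
    have h1 : Module.finrank F W = t := by
      rw [hW, finrank_span_eq_card ht, Fintype.card_fin]
    rw [htop, finrank_top, Module.finrank_fintype_fun_eq_card, Fintype.card_fin] at h1
    exact h1.symm
  subst hts
  refine ⟨ht, ?_⟩
  obtain ⟨c, hc⟩ := (Submodule.mem_span_range_iff_exists_fun F).mp hmem
  refine ⟨fun j => -c j, ?_⟩
  rw [← hc, ← Finset.sum_neg_distrib]
  exact Finset.sum_congr rfl fun j _ => by rw [neg_smul, neg_neg]

end cyc

/-- The remainders are the coordinates of the derivatives of a cyclic vector. -/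
lemma coord_rem {E : Type*} [Field E] {s' : ℕ} (r : Fin (s' + 1) → RatFunc E)
    (δ : (Fin (s' + 1) → RatFunc E) → (Fin (s' + 1) → RatFunc E))
    (hadd : ∀ v w, δ (v + w) = δ v + δ w)
    (hmul : ∀ (a : RatFunc E) v, δ (a • v) = ddxHom E a • v + a • δ v)
    (ρ : ℕ → Fin (s' + 1) → RatFunc E) (hρ : ∀ i, ρ (i + 1) = δ (ρ i))
    (hr : ρ (s' + 1) = -∑ j, r j • ρ j) (i : ℕ) : ρ i = ∑ j, rem r i j • ρ j := by
  classical
  have hδsum : ∀ (t : Finset (Fin (s' + 1))) (v : Fin (s' + 1) → Fin (s' + 1) → RatFunc E),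
      δ (∑ j ∈ t, v j) = ∑ j ∈ t, δ (v j) := by
    intro t v
    induction t using Finset.induction_on with
    | empty =>
      have := hadd 0 0
      simpa using this
    | insert a t ha ih' => rw [Finset.sum_insert ha, Finset.sum_insert ha, hadd, ih']
  induction i with
  | zero =>
    rw [Fin.sum_univ_succ]
    simp [rem]
  | succ i ih =>
    set w := rem r i with hw
    have h0 : ρ (i + 1) = ∑ j, (ddxHom E (w j) • ρ j + w j • ρ ((j : ℕ) + 1)) := by
      rw [hρ]
      conv_lhs => rw [ih]
      rw [hδsum]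
      refine Finset.sum_congr rfl fun j _ => ?_
      rw [hmul, ← hρ]
    have h1 : ∑ j : Fin (s' + 1), w j • ρ ((j : ℕ) + 1) =
        ∑ j : Fin (s' + 1), (if (j : ℕ) = 0 then 0 else w ⟨(j : ℕ) - 1, by omega⟩) • ρ j -
          ∑ j, (w (Fin.last s') * r j) • ρ j := by
      rw [Fin.sum_univ_castSucc]
      rw [Fin.sum_univ_succ (f := fun j : Fin (s' + 1) =>
        (if (j : ℕ) = 0 then 0 else w ⟨(j : ℕ) - 1, by omega⟩) • ρ j)]
      have h2 : w (Fin.last s') • ρ ((Fin.last s' : ℕ) + 1) =
          -∑ j, (w (Fin.last s') * r j) • ρ j := by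
        rw [Fin.val_last, hr, smul_neg, Finset.smul_sum]
        congr 1
        exact Finset.sum_congr rfl fun j _ => smul_smul _ _ _
      rw [h2, sub_eq_add_neg]
      congr 1
      simp only [Fin.val_zero, if_true, zero_smul, zero_add, Fin.val_castSucc, Fin.val_succ]
      rfl
    rw [h0, Finset.sum_add_distrib, h1, ← Finset.sum_sub_distrib, ← Finset.sum_add_distrib]
    refine Finset.sum_congr rfl fun j _ => ?_
    rw [← sub_smul, ← add_smul]
    congr 1
    show _ = ddx E (rem r i j) + _ - _
    rw [← hw, ddxHom_eq, ← add_sub_assoc]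
    rfl

/-- From the last row to the operator. -/
lemma rel_aux {A F : Type*} [CommRing A] [Field F] {n : ℕ} (L : A →+* F) (t : A) (ht : L t ≠ 0)
    (bb Q : Fin (n + 1) → A) (heq : ∀ k : Fin (n + 1), t ^ (n - (k : ℕ)) * bb k =
      bb (Fin.last n) * Q k) (hlast : Q (Fin.last n) = 1) (x : ℕ → F)
    (hrow : x n * L t ^ n + ∑ l : Fin n, L (Q l.castSucc) * (x l * L t ^ (l : ℕ)) = 0) :
    ∑ i : Fin (n + 1), L (bb i) * x i = 0 := by
  have h1 : ∀ i : Fin (n + 1), L (bb i) * x i * L t ^ n =
      L (bb (Fin.last n)) * (L (Q i) * (x i * L t ^ (i : ℕ))) := by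
    intro i
    have h2 := congrArg L (heq i)
    rw [map_mul, map_mul, map_pow] at h2
    have h3 : L t ^ n = L t ^ (n - (i : ℕ)) * L t ^ (i : ℕ) := by
      rw [← pow_add]; congr 1; have := i.2; omega
    rw [h3]
    linear_combination (x i * L t ^ (i : ℕ)) * h2
  apply mul_right_cancel₀ (pow_ne_zero n ht)
  rw [zero_mul, Finset.sum_mul, Finset.sum_congr rfl fun i _ => h1 i, ← Finset.mul_sum,
    Fin.sum_univ_castSucc, hlast, map_one, one_mul]
  simp only [Fin.val_castSucc, Fin.val_last]
  rw [add_comm, hrow, mul_zero]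

/-- Invariant subspaces of the companion system give right factors. -/
theorem factor_of_inv {E : Type*} [Field E] {m n s c c' : ℕ} {b : Fin (n + 1) → ℤ[X]}
    {α : Fin m → E} {Q : Fin (n + 1) → E[X]} (hlast : Q (Fin.last n) = 1)
    (heq : ∀ k : Fin (n + 1), T α ^ (n - (k : ℕ)) * (b k).map (Int.castRingHom E) =
      (b (Fin.last n)).map (Int.castRingHom E) * Q k)
    (h : HasInv α (comp α Q) s c c') : ∃ r : Fin s → RatFunc E, RightFactor E b r := by
  classical
  obtain ⟨g, Λ, -, -, hnab, hev⟩ := h
  rcases Nat.eq_zero_or_pos s with hs | hs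
  · subst hs
    exact ⟨fun j => j.elim0, fun j => j.elim0⟩
  have hinj : Function.Injective (algebraMap E[X] (RatFunc E)) := IsFractionRing.injective _ _
  set L := algebraMap E[X] (RatFunc E) with hL
  set τ := L (T α) with hτ
  have hτ0 : τ ≠ 0 := by
    rw [hτ, ne_eq, map_eq_zero_iff _ hinj]
    exact T_ne
  -- independence over the polynomials
  have hindp : ∀ (d : ℕ) (C : Fin s → E[X]), (∀ j, (C j).natDegree ≤ d) →
      (∀ i, ∑ j, C j * g j i = 0) → C = 0 := by
    intro d
    induction d with
    | zero =>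
      intro C hC hsum
      have h1 : ∀ j, C j = Polynomial.C ((C j).coeff 0) := fun j =>
        eq_C_of_natDegree_le_zero (hC j)
      have h2 := hev (fun j => (C j).coeff 0) fun i => by
        have h3 := congrArg (fun q : E[X] => q.eval 0) (hsum i)
        simp only [eval_finsetSum, eval_mul, eval_zero] at h3
        exact (Finset.sum_congr rfl fun j _ => by rw [coeff_zero_eq_eval_zero]).trans h3
      ext1 j
      rw [h1 j]
      have h3 := congrFun h2 j
      simp only [Pi.zero_apply] at h3
      rw [h3, map_zero]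
      rfl
    | succ d ih =>
      intro C hC hsum
      have h2 := hev (fun j => (C j).coeff 0) fun i => by
        have h3 := congrArg (fun q : E[X] => q.eval 0) (hsum i)
        simp only [eval_finsetSum, eval_mul, eval_zero] at h3
        exact (Finset.sum_congr rfl fun j _ => by rw [coeff_zero_eq_eval_zero]).trans h3
      have h3 : ∀ j, ∃ w, C j = X * w := fun j => X_dvd_iff.mpr (congrFun h2 j)
      choose C' hC' using h3
      have h4 := ih C' (fun j => by
        by_cases h0 : C' j = 0
        · rw [h0]; simp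
        · have := hC j
          rw [hC' j, natDegree_mul X_ne_zero h0, natDegree_X] at this
          omega) fun i => by
        apply mul_left_cancel₀ (X_ne_zero (R := E))
        rw [mul_zero, Finset.mul_sum, ← hsum i]
        exact Finset.sum_congr rfl fun j _ => by rw [hC' j]; ring
      ext1 j
      rw [hC' j, congrFun h4 j, Pi.zero_apply, mul_zero]
  -- the operator on rows
  let δ : (Fin s → RatFunc E) → (Fin s → RatFunc E) := fun v j =>
    ddxHom E (v j) + ∑ l, v l * (L (Λ l j) / τ)
  have hadd : ∀ v w, δ (v + w) = δ v + δ w := by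
    intro v w
    funext j
    simp only [δ, Pi.add_apply, map_add, add_mul, Finset.sum_add_distrib]
    ring
  have hmul : ∀ (a : RatFunc E) v, δ (a • v) = ddxHom E a • v + a • δ v := by
    intro a v
    funext j
    simp only [δ, Pi.add_apply, Pi.smul_apply, smul_eq_mul, ddxHom_mul, mul_assoc,
      ← Finset.mul_sum]
    ring
  let ρ : ℕ → Fin s → RatFunc E := fun i => δ^[i] (fun j => if h : 0 < n then L (g j ⟨0, h⟩) else 0)
  have hρ : ∀ i, ρ (i + 1) = δ (ρ i) := fun i => Function.iterate_succ_apply' δ i _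
  -- the components of the derivation
  have hcomp : ∀ (i : Fin n) j, T α * derivative (g j i) =
      ((i : ℕ) : E[X]) * derivative (T α) * g j i +
        (if h : (i : ℕ) + 1 < n then g j ⟨(i : ℕ) + 1, h⟩ else
          -∑ l : Fin n, Q l.castSucc * g j l) - ∑ l, Λ l j * g l i := by
    intro i j
    have h1 := congrFun (hnab j) i
    simp only [nab, Finset.sum_apply, Pi.smul_apply, smul_eq_mul] at h1
    have h2 : (comp α Q).mulVec (g j) i = ((i : ℕ) : E[X]) * derivative (T α) * g j i +
        (if h : (i : ℕ) + 1 < n then g j ⟨(i : ℕ) + 1, h⟩ else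
          -∑ l : Fin n, Q l.castSucc * g j l) := by
      rw [Matrix.mulVec, dotProduct]
      simp only [W432.WB.comp, Matrix.of_apply, sub_mul, add_mul, Finset.sum_sub_distrib,
        Finset.sum_add_distrib]
      have h3 : ∑ l : Fin n, (if i = l then ((i : ℕ) : E[X]) * derivative (T α) else 0) * g j l =
          ((i : ℕ) : E[X]) * derivative (T α) * g j i := by
        rw [Finset.sum_eq_single i]
        · rw [if_pos rfl]
        · intro l _ hl
          rw [if_neg (Ne.symm hl), zero_mul]
        · intro h; exact absurd (Finset.mem_univ _) h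
      rw [h3, add_sub_assoc]
      congr 1
      by_cases hi : (i : ℕ) + 1 < n
      · rw [dif_pos hi]
        have h4 : ∑ l : Fin n, (if (l : ℕ) = i + 1 then (1 : E[X]) else 0) * g j l =
            g j ⟨(i : ℕ) + 1, hi⟩ := by
          rw [Finset.sum_eq_single ⟨(i : ℕ) + 1, hi⟩]
          · simp
          · intro l _ hl
            rw [if_neg (fun h => hl (Fin.ext h)), zero_mul]
          · intro h; exact absurd (Finset.mem_univ _) h
        rw [h4]
        have h5 : ∑ l : Fin n, (if (i : ℕ) + 1 = n then Q l.castSucc else 0) * g j l = 0 :=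
          Finset.sum_eq_zero fun l _ => by rw [if_neg (by omega), zero_mul]
        rw [h5, sub_zero]
      · rw [dif_neg hi]
        have h4 : ∑ l : Fin n, (if (l : ℕ) = i + 1 then (1 : E[X]) else 0) * g j l = 0 :=
          Finset.sum_eq_zero fun l _ => by
            rw [if_neg (by have := l.2; omega), zero_mul]
        rw [h4, zero_sub]
        congr 1
        refine Finset.sum_congr rfl fun l _ => ?_
        rw [if_pos (by have := i.2; omega)]
    rw [h2] at h1
    linear_combination -h1
  have hTi : ∀ i : ℕ, L (T α ^ i) = τ ^ i := fun i => map_pow L _ i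
  have hδg : ∀ (i : ℕ) (v : Fin s → RatFunc E) (G : Fin s → E[X]),
      (∀ j, v j * τ ^ i = L (G j)) → ∀ j, δ v j * τ ^ (i + 1) =
        L (T α * derivative (G j)) - L ((i : E[X]) * derivative (T α) * G j) +
          ∑ l, L (Λ l j * G l) := by
    intro i v G hv j
    have h1 := congrArg (ddxHom E) (hv j)
    rw [ddxHom_mul, ddxHom_algebraMap, ← hTi, ddxHom_algebraMap, derivative_pow, hTi] at h1
    have h2 : τ * L (C (i : E) * T α ^ (i - 1) * derivative (T α)) =
        L ((i : E[X]) * derivative (T α)) * τ ^ i := by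
      rw [hτ, ← map_mul, ← map_pow, ← map_mul]
      congr 1
      rcases Nat.eq_zero_or_pos i with h3 | h3
      · rw [h3]; simp
      · have h4 : T α ^ i = T α ^ (i - 1) * T α := by
          rw [← pow_succ]; congr 1; omega
        rw [h4, C_eq_natCast]
        ring
    have h3 : (∑ l, v l * (L (Λ l j) / τ)) * τ ^ (i + 1) = ∑ l, L (Λ l j * G l) := by
      rw [Finset.sum_mul]
      refine Finset.sum_congr rfl fun l _ => ?_
      rw [map_mul, ← hv l, pow_succ]
      field_simp
    have h4 : L (T α * derivative (G j)) = τ * L (derivative (G j)) := map_mul L _ _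
    have h5 : L ((i : E[X]) * derivative (T α) * G j) =
        L ((i : E[X]) * derivative (T α)) * (v j * τ ^ i) := by
      rw [map_mul L _ (G j), hv j]
    simp only [δ]
    rw [add_mul, h3, h4, h5, ← h1]
    rw [pow_succ]
    linear_combination -v j * h2
  have hrow : ∀ (i : ℕ) (hi : i < n) j, ρ i j * τ ^ i = L (g j ⟨i, hi⟩) := by
    intro i
    induction i with
    | zero =>
      intro hi j
      simp only [ρ, Function.iterate_zero, id, dif_pos hi, pow_zero, mul_one]
    | succ i ih =>
      intro hi j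
      rw [hρ, hδg i (ρ i) (fun j => g j ⟨i, by omega⟩) (ih (by omega)) j,
        hcomp ⟨i, by omega⟩ j, dif_pos hi]
      simp only [map_add, map_sub, map_sum]
      ring
  have hlastrow : ∀ (hn : 0 < n) j, ρ n j * τ ^ n + ∑ l : Fin n, L (Q l.castSucc) * (ρ l j * τ ^ (l : ℕ)) = 0 := by
    intro hn j
    obtain ⟨n', hn'⟩ : ∃ n', n = n' + 1 := ⟨n - 1, by omega⟩
    have h1 : ρ n j * τ ^ n = δ (ρ n') j * τ ^ (n' + 1) := by
      rw [← hρ, ← hn']
    rw [h1, hδg n' (ρ n') (fun j => g j ⟨n', by omega⟩) (hrow n' (by omega)) j,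
      hcomp ⟨n', by omega⟩ j, dif_neg (by simp [hn'])]
    have h2 : ∑ l : Fin n, L (Q l.castSucc) * (ρ l j * τ ^ (l : ℕ)) =
        ∑ l : Fin n, L (Q l.castSucc * g j l) := by
      refine Finset.sum_congr rfl fun l _ => ?_
      rw [hrow l l.2, map_mul]
    rw [h2]
    simp only [map_add, map_sub, map_sum, map_neg]
    ring
  have hn : 0 < n := by
    by_contra h0
    have h1 := hev (fun _ => 1) (fun i => by have := i.2; omega)
    exact one_ne_zero (congrFun h1 ⟨0, hs⟩)
  have hrel : ∀ j, ∑ i : Fin (n + 1), L ((b i).map (Int.castRingHom E)) * ρ i j = 0 := by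
    intro j
    exact rel_aux L (T α) hτ0 (fun i => (b i).map (Int.castRingHom E)) Q heq hlast
      (fun i => ρ i j) (hlastrow hn j)
  -- spanning
  obtain ⟨hind, r, hr⟩ := cyclic (fun a => ddxHom E a) δ hadd hmul ρ hρ (by
    intro a ha
    obtain ⟨q, hq⟩ := IsLocalization.exist_integer_multiples_of_finset (nonZeroDivisors E[X])
      (Finset.univ.image a)
    have h1 : ∀ j, ∃ w : E[X], L w = L q * a j := by
      intro j
      obtain ⟨w, hw⟩ := hq (a j) (Finset.mem_image.mpr ⟨j, Finset.mem_univ _, rfl⟩)
      exact ⟨w, by rw [hL, hw, Algebra.smul_def]⟩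
    choose w hw using h1
    have h2 := hindp (Finset.univ.sup fun j => (w j).natDegree) w
      (fun j => Finset.le_sup (f := fun j => (w j).natDegree) (Finset.mem_univ j)) fun i => by
      apply hinj
      rw [map_sum, map_zero]
      have h3 := ha i
      have h4 : ∑ j, L (w j * g j i) = L q * τ ^ (i : ℕ) * ∑ j, a j * ρ i j := by
        rw [Finset.mul_sum]
        refine Finset.sum_congr rfl fun j _ => ?_
        rw [map_mul, hw, ← hrow i i.2]
        ring
      rw [h4, h3, mul_zero]
    ext1 j
    have h3 := hw j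
    rw [congrFun h2 j, Pi.zero_apply, map_zero] at h3
    have h4 : L (q : E[X]) ≠ 0 := by
      rw [ne_eq, map_eq_zero_iff _ hinj]
      exact nonZeroDivisors.ne_zero q.2
    exact (mul_eq_zero.mp h3.symm).resolve_left h4)
  refine ⟨r, ?_⟩
  -- the remainders are the coordinates
  obtain ⟨s', rfl⟩ : ∃ s', s = s' + 1 := ⟨s - 1, by omega⟩
  have hcoord := coord_rem r δ hadd hmul ρ hρ hr
  intro j
  have h1 : ∑ j, (∑ i : Fin (n + 1), L ((b i).map (Int.castRingHom E)) * rem r i j) • ρ j = 0 := by
    funext l
    rw [Finset.sum_apply, Pi.zero_apply, ← hrel l]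
    simp only [Pi.smul_apply, smul_eq_mul, Finset.sum_mul]
    rw [Finset.sum_comm]
    refine Finset.sum_congr rfl fun i _ => ?_
    conv_rhs => rw [hcoord i, Finset.sum_apply, Finset.mul_sum]
    refine Finset.sum_congr rfl fun j _ => ?_
    rw [Pi.smul_apply, smul_eq_mul]
    ring
  exact Fintype.linearIndependent_iff.mp hind _ h1 j

end Pool.Agent.X98.FL
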