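import Pool.Agent.X98.FL.ModP

set_option autoImplicit false

open Polynomial

namespace Pool.Agent.X98.FL

open Pool.Agent.W432.PC (T Tc T_eq T_monic T_ne T_natDegree T_map ddx ddx_algebraMap
  exists_closed_point)
open Pool.Agent.W432.WB (IsFuchs resMat infMat RedExp cw WDeg_comp exists_ring exists_lift geo
  redExp_loc redExp_inf HasExps indLoc_map indInf_map indLoc indInf comp_map)
open Pool.Agent.W432.HK (map_ne_of_large FuchsianWith CommonDen)
open Pool.Agent.X98.PC (ddxHom ddxHom_mul ddxHom_eq ddxHom_algebraMap clear ht)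

/-- Reduction of a Fuchsian operator modulo all large primes. -/
theorem reduce2 {m n : ℕ} {b : Fin (n + 1) → ℤ[X]} {α : Fin m → AlgebraicClosure ℚ}
    {Q : Fin (n + 1) → (AlgebraicClosure ℚ)[X]} (hF : IsFuchs b α Q) :
    ∃ (R : Type) (_ : CommRing R) (_ : IsDomain R) (ι : R →+* AlgebraicClosure ℚ) (α' : Fin m → R)
      (Q' : Fin (n + 1) → R[X]), Function.Injective ι ∧ (∀ j, ι (α' j) = α j) ∧
      (∀ k, (Q' k).map ι = Q k) ∧ (∀ k : Fin (n + 1), T α' ^ (n - (k : ℕ)) *
        (b k).map (Int.castRingHom R) = (b (Fin.last n)).map (Int.castRingHom R) * Q' k) ∧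
      ∀ g : R, g ≠ 0 → ∃ P₀ : ℕ, ∀ p : ℕ, P₀ < p → p.Prime →
        ∃ (K : Type) (_ : Field K) (_ : CharP K p) (_ : IsAlgClosed K) (φ : R →+* K),
          φ g ≠ 0 ∧ Function.Injective (fun j => φ (α' j)) := by
  classical
  let S : Finset (AlgebraicClosure ℚ) := (Finset.univ.image α) ∪
    (Finset.univ.image fun x : Fin m × Fin m => (α x.1 - α x.2)⁻¹) ∪
    (Finset.univ.biUnion fun k : Fin (n + 1) => (Q k).support.image (Q k).coeff)
  obtain ⟨R, _, hdom, _, _, ι, hι, hS⟩ := exists_ring S
  have hα' : ∀ j, ∃ x, ι x = α j := fun j => hS _ (by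
    simp only [S, Finset.mem_union, Finset.mem_image, Finset.mem_univ, true_and]
    exact Or.inl (Or.inl ⟨j, rfl⟩))
  choose α' hα' using hα'
  have hinv : ∀ i j, ∃ x, ι x = (α i - α j)⁻¹ := fun i j => hS _ (by
    simp only [S, Finset.mem_union, Finset.mem_image, Finset.mem_univ, true_and]
    exact Or.inl (Or.inr ⟨(i, j), rfl⟩))
  have hQl : ∀ k, ∃ P : R[X], P.map ι = Q k := fun k => exists_lift ι (Q k) fun i hi => hS _ (by
    simp only [S, Finset.mem_union, Finset.mem_biUnion, Finset.mem_univ, true_and]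
    exact Or.inr ⟨k, Finset.mem_image.mpr ⟨i, hi, rfl⟩⟩)
  choose Q' hQ' using hQl
  have hαe : (fun j => ι (α' j)) = α := funext hα'
  have hcast : ι.comp (Int.castRingHom R) = Int.castRingHom (AlgebraicClosure ℚ) :=
    RingHom.ext_int _ _
  refine ⟨R, inferInstance, hdom, ι, α', Q', hι, hα', hQ', fun k => ?_, fun g hg => ?_⟩
  · apply map_injective ι hι
    rw [Polynomial.map_mul, Polynomial.map_mul, Polynomial.map_pow, T_map, Polynomial.map_map,
      Polynomial.map_map, hcast, hQ', hαe]
    exact hF.eq k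
  obtain ⟨P₁, hP₁⟩ := exists_closed_point R hg
  refine ⟨P₁, fun p hp hpp => ?_⟩
  obtain ⟨𝔪, h𝔪, hpm, hgm⟩ := hP₁ p hpp hp
  obtain ⟨K, _, _, _, φ, hφ⟩ := geo hpp hpm
  refine ⟨K, inferInstance, inferInstance, inferInstance, φ, hφ g hgm, ?_⟩
  intro i j hij
  by_contra hne
  obtain ⟨x, hx⟩ := hinv i j
  have h1 : (α' i - α' j) * x = 1 := by
    apply hι
    rw [map_mul, map_sub, hα', hα', hx, map_one]
    exact mul_inv_cancel₀ (sub_ne_zero.mpr fun h => hne (hF.inj h))
  have h2 := congrArg φ h1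
  simp only at hij
  rw [map_mul, map_sub, hij, sub_self, zero_mul, map_one] at h2
  exact zero_ne_one h2

/-- Right factors and numerators. -/
lemma numer_rel {k : Type*} [Field k] {n s : ℕ} {b : Fin (n + 1) → ℤ[X]} {r : Fin s → RatFunc k}
    (h : RightFactor k b r) {A : Fin s → k[X]} {B : k[X]}
    (hr : ∀ j, r j * algebraMap k[X] (RatFunc k) B = algebraMap k[X] (RatFunc k) (A j))
    (j : Fin s) : ∑ i : Fin (n + 1), (b i).map (Int.castRingHom k) * (B ^ (n - (i : ℕ)) *
      Pr A B i j) = 0 := by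
  have hinj : Function.Injective (algebraMap k[X] (RatFunc k)) := IsFractionRing.injective _ _
  apply hinj
  rw [map_sum, map_zero]
  have h1 := congrArg (fun x => x * algebraMap k[X] (RatFunc k) B ^ n) (h j)
  simp only [zero_mul, Finset.sum_mul] at h1
  rw [← h1]
  refine Finset.sum_congr rfl fun i _ => ?_
  have h2 : algebraMap k[X] (RatFunc k) B ^ n = algebraMap k[X] (RatFunc k) B ^ (n - (i : ℕ)) *
      algebraMap k[X] (RatFunc k) B ^ (i : ℕ) := by
    rw [← pow_add]; congr 1; have := i.2; omega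
  rw [map_mul, map_mul, map_pow, ← rem_Pr hr i j, h2]
  ring

/-- A right factor of an operator has at most the same order. -/
lemma order_le {k : Type*} [Field k] {n s : ℕ} {b : Fin (n + 1) → ℤ[X]} {r : Fin s → RatFunc k}
    (h : RightFactor k b r) (hb : (b (Fin.last n)).map (Int.castRingHom k) ≠ 0) : s ≤ n := by
  by_contra hcon
  push Not at hcon
  have hinj : Function.Injective (algebraMap k[X] (RatFunc k)) := IsFractionRing.injective _ _
  have hrem : ∀ i, i < s → ∀ j : Fin s, rem r i j = if (j : ℕ) = i then 1 else 0 := by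
    intro i
    induction i with
    | zero => intro _ j; rfl
    | succ i ih =>
      intro hi j
      have h3 : rem r (i + 1) j = ddx k (rem r i j) +
        (if (j : ℕ) = 0 then 0 else rem r i ⟨(j : ℕ) - 1, by omega⟩) -
        rem r i ⟨s - 1, by have := j.2; omega⟩ * r j := rfl
      rw [h3, ih (by omega), ih (by omega) ⟨s - 1, _⟩]
      have h1 : ¬ ((⟨s - 1, by omega⟩ : Fin s) : ℕ) = i := by
        show ¬ (s - 1 = i)
        omega
      rw [if_neg h1, zero_mul, sub_zero]
      have h4 : ddx k (if (j : ℕ) = i then 1 else 0) = 0 := by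
        split_ifs
        · exact (ddx k).map_one_eq_zero
        · exact map_zero _
      rw [h4, zero_add]
      by_cases hj : (j : ℕ) = 0
      · rw [if_pos hj, if_neg (by omega)]
      · rw [if_neg hj, ih (by omega)]
        by_cases hj' : (j : ℕ) = i + 1
        · rw [if_pos hj', if_pos (by show (j : ℕ) - 1 = i; omega)]
        · rw [if_neg hj', if_neg (by show ¬ ((j : ℕ) - 1 = i); omega)]
  have h1 := h ⟨n, hcon⟩
  rw [Finset.sum_eq_single (Fin.last n)] at h1
  · rw [Fin.val_last, hrem n hcon, if_pos rfl, mul_one, map_eq_zero_iff _ hinj] at h1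
    exact hb h1
  · intro i _ hi
    rw [hrem i (by have := i.2; omega), if_neg, mul_zero]
    intro h2
    exact hi (Fin.ext h2.symm)
  · intro h2; exact absurd (Finset.mem_univ _) h2

/-- Right factors of small height modulo one prime give right factors in characteristic zero. -/
theorem factors_lift {m n : ℕ} (hm : 0 < m) {b : Fin (n + 1) → ℤ[X]}
    {α : Fin m → AlgebraicClosure ℚ} {lam : Fin m → Fin n → ℚ} {phi : Fin n → ℚ}
    (h : FuchsianWith b α lam phi) {N₀ : ℕ} (hN : CommonDen lam phi N₀) :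
    ∃ C : ℕ, ∀ (p : ℕ) [Fact p.Prime] (k : Type*) [Field k] [Algebra (ZMod p) k]
      [Algebra.IsAlgebraic (ZMod p) k] (s : ℕ) (r : Fin s → RatFunc k), RightFactor k b r →
      (∀ j, C * (ht (r j) + 1) < p) →
      ∃ r' : Fin s → RatFunc (AlgebraicClosure ℚ), RightFactor (AlgebraicClosure ℚ) b r' := by
  classical
  obtain ⟨hb, Q, hF, hE⟩ := h
  obtain ⟨hN₀, ha, ha'⟩ := hN
  choose a ha using ha
  choose a' ha' using ha'
  obtain ⟨R, _, _, ι, α', Q', hι, hα', hQ', hrelR, hred⟩ := reduce2 hF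
  have hαe : (fun j => ι (α' j)) = α := funext hα'
  have hQe : (fun k => (Q' k).map ι) = Q := funext hQ'
  have hQ'last : Q' (Fin.last n) = 1 := by
    apply map_injective ι hι
    rw [hQ', Polynomial.map_one]
    exact hF.last
  set mu' : Fin n → ℤ := fun l => a' l + N₀ * ((n - 1) * (m - 1) : ℕ) with hmu'
  set A : ℕ := ∑ j, ∑ l, (a j l).natAbs + ∑ l, (mu' l).natAbs with hA
  choose d hd hlift using fun s : ℕ => hasInv_lift (n := n) s (s * A) (m - 1 + s * A) ι hι α'
    (W432.WB.comp α' Q')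
  obtain ⟨P₀, hP₀⟩ := hred (∏ s ∈ Finset.range (n + 1), d s)
    (Finset.prod_ne_zero_iff.mpr fun s _ => hd s)
  refine ⟨P₀ + (b (Fin.last n)).leadingCoeff.natAbs + N₀ * (n * (n * (m + n))) + n * A + n + 1,
    fun p hpf k _ _ _ s r hr hht => ?_⟩
  rcases Nat.eq_zero_or_pos s with hs | hs
  · subst hs
    exact ⟨fun j => j.elim0, fun j => j.elim0⟩
  -- the height
  have hne : (Finset.univ : Finset (Fin s)).Nonempty := ⟨⟨0, hs⟩, Finset.mem_univ _⟩
  obtain ⟨j₀, _, hj₀⟩ := Finset.exists_mem_eq_sup _ hne fun j => ht (r j)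
  set h₀ := Finset.univ.sup fun j => ht (r j) with hh₀
  have hht' := hht j₀
  rw [← hj₀] at hht'
  have hle : ∀ j, ht (r j) ≤ h₀ := fun j =>
    Finset.le_sup (f := fun j => ht (r j)) (Finset.mem_univ j)
  have hpC : P₀ + (b (Fin.last n)).leadingCoeff.natAbs + N₀ * (n * (n * (m + n))) + n * A + n + 1
      < p := lt_of_le_of_lt (Nat.le_mul_of_pos_right _ (Nat.succ_pos _)) hht'
  obtain ⟨K, _, _, _, φ, hφg, hinj⟩ := hP₀ p (by omega) hpf.out
  have hcharK := ‹CharP K p›
  have hkp : CharP k p := charP_of_injective_algebraMap (algebraMap (ZMod p) k).injective p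
  have hbk := map_ne_of_large (K := k) hb (p := p) (by omega)
  have hbK := map_ne_of_large (K := K) hb (p := p) (by omega)
  have hsn : s ≤ n := order_le hr hbk
  have hn : 0 < n := by omega
  let _ : Algebra (ZMod p) K := ZMod.algebra K p
  let θ : k →ₐ[ZMod p] K := IsAlgClosed.lift
  let θ' : k →+* K := θ
  have hθ : Function.Injective θ' := θ'.injective
  -- the numerators and the denominator
  have hinjk : Function.Injective (algebraMap k[X] (RatFunc k)) := IsFractionRing.injective _ _
  let Bk : k[X] := ∏ j, (r j).denom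
  let Ak : Fin s → k[X] := fun j => (r j).num * ∏ i ∈ Finset.univ.erase j, (r i).denom
  have hBk0 : Bk ≠ 0 := Finset.prod_ne_zero_iff.mpr fun j _ => RatFunc.denom_ne_zero _
  have hrAB : ∀ j, r j * algebraMap k[X] (RatFunc k) Bk = algebraMap k[X] (RatFunc k) (Ak j) := by
    intro j
    have h1 : Bk = (r j).denom * ∏ i ∈ Finset.univ.erase j, (r i).denom :=
      (Finset.mul_prod_erase _ _ (Finset.mem_univ j)).symm
    have h2 := RatFunc.num_div_denom (r j)
    have h3 : algebraMap k[X] (RatFunc k) (r j).denom ≠ 0 := by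
      rw [ne_eq, map_eq_zero_iff _ hinjk]
      exact RatFunc.denom_ne_zero _
    rw [div_eq_iff h3] at h2
    rw [h1, map_mul, map_mul, h2]
    ring
  have hBdeg : Bk.natDegree ≤ s * h₀ := by
    refine (natDegree_prod_le _ _).trans ?_
    refine (Finset.sum_le_card_nsmul _ _ h₀ fun j _ => (le_max_right _ _).trans (hle j)).trans ?_
    simp
  have hAdeg : ∀ j, (Ak j).natDegree ≤ s * h₀ := by
    intro j
    refine natDegree_mul_le.trans ?_
    have h1 : (r j).num.natDegree ≤ h₀ := (le_max_left _ _).trans (hle j)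
    have h2 : (∏ i ∈ Finset.univ.erase j, (r i).denom).natDegree ≤ (s - 1) * h₀ := by
      refine (natDegree_prod_le _ _).trans ?_
      refine (Finset.sum_le_card_nsmul _ _ h₀ fun i _ =>
        (le_max_right _ _).trans (hle i)).trans ?_
      rw [Finset.card_erase_of_mem (Finset.mem_univ j), Finset.card_univ, Fintype.card_fin,
        smul_eq_mul]
    have h3 : s * h₀ = h₀ + (s - 1) * h₀ := by
      obtain ⟨s', rfl⟩ : ∃ s', s = s' + 1 := ⟨s - 1, by omega⟩
      rw [Nat.add_sub_cancel]
      ring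
    omega
  -- the relation over `K`
  have hcomp : θ'.comp (Int.castRingHom k) = Int.castRingHom K := RingHom.ext_int _ _
  have hcompφ : φ.comp (Int.castRingHom R) = Int.castRingHom K := RingHom.ext_int _ _
  have hrelK : ∀ j, ∑ l : Fin (n + 1), (Q' l).map φ * (T (fun j => φ (α' j)) ^ (l : ℕ) *
      (Bk.map θ') ^ (n - (l : ℕ)) * Pr (fun j => (Ak j).map θ') (Bk.map θ') l j) = 0 := by
    intro j
    have h1 := congrArg (Polynomial.map θ') (numer_rel hr hrAB j)
    rw [Polynomial.map_sum, Polynomial.map_zero] at h1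
    have h2 := congrArg (fun x => T (fun j => φ (α' j)) ^ n * x) h1
    simp only [mul_zero, Finset.mul_sum] at h2
    apply mul_left_cancel₀ hbK
    rw [mul_zero, Finset.mul_sum, ← h2]
    refine Finset.sum_congr rfl fun i _ => ?_
    have h4 := congrArg (Polynomial.map φ) (hrelR i)
    rw [Polynomial.map_mul, Polynomial.map_mul, Polynomial.map_pow, T_map, Polynomial.map_map,
      Polynomial.map_map, hcompφ] at h4
    have h3 : T (fun j => φ (α' j)) ^ n =
        T (fun j => φ (α' j)) ^ (i : ℕ) * T (fun j => φ (α' j)) ^ (n - (i : ℕ)) := by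
      rw [← pow_add]
      congr 1
      have := i.isLt
      omega
    rw [Polynomial.map_mul, Polynomial.map_mul, Polynomial.map_map, hcomp, Polynomial.map_pow,
      Pr_map, h3]
    linear_combination (-(T (fun j => φ (α' j)) ^ (i : ℕ) * (Bk.map θ') ^ (n - (i : ℕ)) *
      Pr (fun j => (Ak j).map θ') (Bk.map θ') i j)) * h4
  -- exponents
  have hloc : ∀ j, RedExp N₀ (resMat (fun j => φ (α' j))
      (W432.WB.comp (fun j => φ (α' j)) fun k => (Q' k).map φ) j).charpoly (a j) := by
    intro j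
    refine redExp_loc φ hinj hQ'last ?_
    exact clear ι hι (I := indLoc α' Q' j) (u := (derivative (T α')).eval (α' j) ^ n)
      (lam := lam j) (N₀ := N₀) (a := a j) (by
        rw [indLoc_map, hαe, hQe, hE.1 j]
        congr 2
        rw [map_pow, ← eval_map_apply, ← derivative_map, T_map, hαe, hα']) (ha j)
  have hinf : RedExp N₀ (infMat m (W432.WB.comp (fun j => φ (α' j)) fun k => (Q' k).map φ)
      (cw m n)).charpoly mu' := by
    refine redExp_inf φ hm hn hQ'last ?_
    have hcl := clear ι hι (I := indInf m Q') (u := 1) (lam := phi) (N₀ := N₀) (a := a') (by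
      rw [indInf_map, hQe, hE.2]
      simp) ha'
    rw [map_one, one_mul] at hcl
    exact hcl
  have hdegK : ∀ i : Fin (n + 1), ((Q' i).map φ).natDegree ≤ (n - (i : ℕ)) * (m - 1) := by
    intro i
    refine natDegree_map_le.trans ?_
    rw [← natDegree_map_eq_of_injective hι, hQ']
    exact hF.deg i
  have hinv : HasInv (fun j => φ (α' j)) (W432.WB.comp (fun j => φ (α' j)) fun k =>
      (Q' k).map φ) s (s * A) (m - 1 + s * A) := by
    refine modp (p := p) hm hinj (by simp only [hQ'last, Polynomial.map_one]) hdegK hN₀ hloc hinf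
      hA.ge hsn (fun j => (Ak j).map θ') (Bk.map θ')
      ((Polynomial.map_ne_zero_iff hθ).mpr hBk0) (s * h₀)
      (fun j => natDegree_map_le.trans (hAdeg j)) (natDegree_map_le.trans hBdeg) hrelK ?_
    refine lt_of_le_of_lt ?_ hht'
    have h1 : s * (n * (m + s * h₀)) ≤ n * (n * (m + n)) * (h₀ + 1) := by
      calc s * (n * (m + s * h₀)) ≤ n * (n * (m + n * h₀)) := by gcongr
        _ ≤ n * (n * ((m + n) * (h₀ + 1))) := by
            gcongr
            nlinarith [Nat.zero_le (m * h₀), Nat.zero_le n]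
        _ = _ := by ring
    have h2 : N₀ * (s * (n * (m + s * h₀))) ≤ N₀ * (n * (n * (m + n))) * (h₀ + 1) := by
      calc _ ≤ N₀ * (n * (n * (m + n)) * (h₀ + 1)) := Nat.mul_le_mul_left _ h1
        _ = _ := by ring
    have h3 : s * A ≤ n * A * (h₀ + 1) :=
      (Nat.mul_le_mul_right A hsn).trans (Nat.le_mul_of_pos_right _ (Nat.succ_pos _))
    calc _ ≤ N₀ * (n * (n * (m + n))) * (h₀ + 1) + n * A * (h₀ + 1) := Nat.add_le_add h2 h3
      _ = (N₀ * (n * (n * (m + n))) + n * A) * (h₀ + 1) := by ring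
      _ ≤ _ := Nat.mul_le_mul_right _ (by omega)
  -- lifting
  have hφd : φ (d s) ≠ 0 := by
    intro h0
    apply hφg
    rw [map_prod]
    exact Finset.prod_eq_zero (Finset.mem_range.mpr (by omega : s < n + 1)) h0
  have hE' := hlift s K φ hφd (by rw [W432.WB.comp_map]; exact hinv)
  rw [W432.WB.comp_map, hαe, hQe] at hE'
  exact factor_of_inv hF.last hF.eq hE'

end Pool.Agent.X98.FL
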