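import Mathlib

set_option autoImplicit false

open MvPolynomial

namespace Pool.Agent.X98.FL

attribute [local instance] MvPolynomial.algebraMvPolynomial

/-- A system of polynomial equations without solutions over an algebraically closed field has a
certificate over the ring of definition. -/
theorem ns {R : Type*} [CommRing R] [IsDomain R] {E : Type*} [Field E] [IsAlgClosed E]
    (ι : R →+* E) (hι : Function.Injective ι) {σ : Type*} [Finite σ] (S : Set (MvPolynomial σ R))
    (h : ¬ ∃ a : σ → E, ∀ F ∈ S, eval₂ ι a F = 0) : ∃ d : R, d ≠ 0 ∧ C d ∈ Ideal.span S := by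
  classical
  let K := FractionRing R
  let j : K →+* E := IsFractionRing.lift (A := R) (K := K) (g := ι) hι
  let _ : Algebra K E := j.toAlgebra
  have hj : ∀ x : R, j (algebraMap R K x) = ι x := fun x => IsFractionRing.lift_algebraMap hι x
  let M := nonZeroDivisors R
  have hloc : IsLocalization (M.map (C (R := R) (σ := σ))) (MvPolynomial σ K) :=
    MvPolynomial.isLocalization M K
  by_contra hcon
  push Not at hcon
  have hdis : Disjoint ((M.map (C (R := R) (σ := σ)) : Submonoid _) : Set (MvPolynomial σ R))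
      (Ideal.span S : Set (MvPolynomial σ R)) := by
    rw [Set.disjoint_left]
    rintro _ ⟨d, hd, rfl⟩ h1
    exact hcon d (nonZeroDivisors.ne_zero hd) h1
  have hne : (Ideal.span S).map (algebraMap (MvPolynomial σ R) (MvPolynomial σ K)) ≠ ⊤ :=
    (IsLocalization.map_algebraMap_ne_top_iff_disjoint (M.map C) (MvPolynomial σ K) _).mpr hdis
  obtain ⟨𝔪, h𝔪, hle⟩ := Ideal.exists_le_maximal _ hne
  let _ : Field (MvPolynomial σ K ⧸ 𝔪) := Ideal.Quotient.field 𝔪
  have hfin : Module.Finite K (MvPolynomial σ K ⧸ 𝔪) :=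
    finite_of_finite_type_of_isJacobsonRing K (MvPolynomial σ K ⧸ 𝔪)
  have hint : Algebra.IsAlgebraic K (MvPolynomial σ K ⧸ 𝔪) := Algebra.IsAlgebraic.of_finite K _
  let f : (MvPolynomial σ K ⧸ 𝔪) →ₐ[K] E := IsAlgClosed.lift
  apply h
  refine ⟨fun i => f (Ideal.Quotient.mk 𝔪 (X i)), fun F hF => ?_⟩
  have h1 : eval₂ ι (fun i => f (Ideal.Quotient.mk 𝔪 (X i))) F =
      f (Ideal.Quotient.mk 𝔪 (algebraMap (MvPolynomial σ R) (MvPolynomial σ K) F)) := by
    have h2 : (eval₂Hom ι (fun i => f (Ideal.Quotient.mk 𝔪 (X i)))) =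
        ((f : (MvPolynomial σ K ⧸ 𝔪) →+* E).comp (Ideal.Quotient.mk 𝔪)).comp
          (algebraMap (MvPolynomial σ R) (MvPolynomial σ K)) := by
      apply MvPolynomial.ringHom_ext
      · intro x
        rw [eval₂Hom_C]
        have h3 : algebraMap (MvPolynomial σ R) (MvPolynomial σ K) (C x) =
            algebraMap K (MvPolynomial σ K) (algebraMap R K x) := by
          rw [MvPolynomial.algebraMap_def, map_C]
          rfl
        simp only [RingHom.comp_apply, h3]
        have h4 : (Ideal.Quotient.mk 𝔪) (algebraMap K (MvPolynomial σ K) (algebraMap R K x)) =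
            algebraMap K (MvPolynomial σ K ⧸ 𝔪) (algebraMap R K x) := rfl
        rw [h4]
        have h5 : (f : (MvPolynomial σ K ⧸ 𝔪) →+* E) (algebraMap K (MvPolynomial σ K ⧸ 𝔪)
            (algebraMap R K x)) = algebraMap K E (algebraMap R K x) := f.commutes _
        rw [h5]
        exact (hj x).symm
      · intro i
        simp only [RingHom.comp_apply, eval₂Hom_X', MvPolynomial.algebraMap_def, map_X]
        rfl
    have h3 := congrArg (fun g : MvPolynomial σ R →+* E => g F) h2
    exact h3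
  rw [h1]
  have h2 : algebraMap (MvPolynomial σ R) (MvPolynomial σ K) F ∈ 𝔪 :=
    hle (Ideal.mem_map_of_mem _ (Ideal.subset_span hF))
  rw [Ideal.Quotient.eq_zero_iff_mem.mpr h2, map_zero]

/-- Solutions over a field avoiding a fixed nonzero element give solutions over the algebraically
closed field. -/
theorem ns_lift {R : Type*} [CommRing R] [IsDomain R] {E : Type*} [Field E] [IsAlgClosed E]
    (ι : R →+* E) (hι : Function.Injective ι) {σ : Type*} [Finite σ]
    (S : Set (MvPolynomial σ R)) : ∃ d : R, d ≠ 0 ∧ ∀ (k : Type*) [Field k] (φ : R →+* k),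
      φ d ≠ 0 → (∃ a : σ → k, ∀ F ∈ S, eval₂ φ a F = 0) → ∃ a : σ → E, ∀ F ∈ S, eval₂ ι a F = 0 := by
  by_cases h : ∃ a : σ → E, ∀ F ∈ S, eval₂ ι a F = 0
  · exact ⟨1, one_ne_zero, fun k _ φ _ _ => h⟩
  · obtain ⟨d, hd, hdS⟩ := ns ι hι S h
    refine ⟨d, hd, fun k _ φ hφ ha => ?_⟩
    obtain ⟨a, ha⟩ := ha
    exfalso
    apply hφ
    have h1 : Ideal.span S ≤ RingHom.ker (eval₂Hom φ a) := by
      rw [Ideal.span_le]
      intro F hF
      exact ha F hF
    have h2 := h1 hdS
    rw [RingHom.mem_ker, eval₂Hom_C] at h2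
    exact h2

end Pool.Agent.X98.FL
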