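import Pool.Agent.X98.FL.Bound
import Pool.Agent.X98.FL.NS

set_option autoImplicit false

open Polynomial

namespace Pool.Agent.X98.FL

open Pool.Agent.W432.PC (T T_map)

/-- The system `T y' = B y` has an invariant subspace of dimension `s`, given by a polynomial
frame which is independent at the point `0`; the degrees are bounded by `c` and `c'`. -/
def HasInv {k : Type*} [Field k] {m n : ℕ} (α : Fin m → k) (B : Matrix (Fin n) (Fin n) k[X])
    (s c c' : ℕ) : Prop :=
  ∃ (g : Fin s → Fin n → k[X]) (Λ : Matrix (Fin s) (Fin s) k[X]),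
    (∀ j i, (g j i).natDegree ≤ c) ∧ (∀ l j, (Λ l j).natDegree ≤ c') ∧
    (∀ j, nab α B (g j) = ∑ l, Λ l j • g l) ∧
    (∀ c : Fin s → k, (∀ i, ∑ j, c j * (g j i).eval 0 = 0) → c = 0)

/-- Independent vectors have a dual family. -/
lemma exists_dual {F : Type*} [Field F] {s n : ℕ} {z : Fin s → Fin n → F}
    (hz : ∀ c : Fin s → F, (∀ i, ∑ j, c j * z j i = 0) → c = 0) :
    ∃ A : Fin s → Fin n → F, ∀ j j', ∑ i, A j i * z j' i = if j = j' then 1 else 0 := by
  classical
  let φ : (Fin s → F) →ₗ[F] (Fin n → F) := Fintype.linearCombination F z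
  have hφ : ∀ c i, φ c i = ∑ j, c j * z j i := by
    intro c i
    simp [φ, Fintype.linearCombination_apply, Finset.sum_apply]
  have hker : LinearMap.ker φ = ⊥ := by
    rw [LinearMap.ker_eq_bot']
    intro c hc
    exact hz c fun i => by rw [← hφ, hc]; rfl
  obtain ⟨g, hg⟩ := φ.exists_leftInverse_of_injective hker
  refine ⟨fun j i => g (Pi.single i 1) j, fun j j' => ?_⟩
  have h1 := congrFun (congrArg (fun q => q (Pi.single j' 1)) hg) j
  simp only [LinearMap.comp_apply, LinearMap.id_apply] at h1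
  have h2 : φ (Pi.single j' 1) = ∑ i, z j' i • (Pi.single i 1 : Fin n → F) := by
    funext i
    rw [hφ, Finset.sum_eq_single j']
    · simp [Finset.sum_apply, Pi.single_apply]
    · intro l _ hl
      simp [hl]
    · intro h; exact absurd (Finset.mem_univ _) h
  rw [h2, map_sum, Finset.sum_apply] at h1
  simp only [map_smul, Pi.smul_apply, smul_eq_mul] at h1
  rw [Pi.single_apply] at h1
  rw [← h1]
  exact Finset.sum_congr rfl fun i _ => mul_comm _ _

section

variable {R : Type*} [CommRing R] {m n : ℕ} (s c c' : ℕ)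

/-- The indices of the unknown coefficients. -/
abbrev Ix (n s c c' : ℕ) : Type :=
  (Fin s × Fin n × Fin (c + 1)) ⊕ ((Fin s × Fin s × Fin (c' + 1)) ⊕ (Fin s × Fin n))

variable {S : Type*} [CommRing S]

/-- The frame with given coefficients. -/
noncomputable def gOf (a : Ix n s c c' → S) (j : Fin s) (i : Fin n) : S[X] :=
  ∑ t : Fin (c + 1), C (a (Sum.inl (j, i, t))) * X ^ (t : ℕ)

/-- The matrix with given coefficients. -/
noncomputable def lOf (a : Ix n s c c' → S) (l j : Fin s) : S[X] :=
  ∑ t : Fin (c' + 1), C (a (Sum.inr (Sum.inl (l, j, t)))) * X ^ (t : ℕ)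

/-- The defect of the differential equation. -/
noncomputable def e1 (α : Fin m → S) (B : Matrix (Fin n) (Fin n) S[X]) (a : Ix n s c c' → S)
    (j : Fin s) (i : Fin n) : S[X] :=
  ∑ l, B i l * gOf s c c' a j l - T α * derivative (gOf s c c' a j i) -
    ∑ l, lOf s c c' a l j * gOf s c c' a l i

/-- The defect of the duality. -/
noncomputable def e2 (a : Ix n s c c' → S) (j j' : Fin s) : S :=
  ∑ i, a (Sum.inr (Sum.inr (j, i))) * (gOf s c c' a j' i).eval 0 - if j = j' then 1 else 0

variable {S' : Type*} [CommRing S'] (f : S →+* S')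

lemma gOf_map (a : Ix n s c c' → S) (j : Fin s) (i : Fin n) :
    (gOf s c c' a j i).map f = gOf s c c' (fun x => f (a x)) j i := by
  simp [gOf, Polynomial.map_sum]

lemma lOf_map (a : Ix n s c c' → S) (l j : Fin s) :
    (lOf s c c' a l j).map f = lOf s c c' (fun x => f (a x)) l j := by
  simp [lOf, Polynomial.map_sum]

lemma e1_map (α : Fin m → S) (B : Matrix (Fin n) (Fin n) S[X]) (a : Ix n s c c' → S)
    (j : Fin s) (i : Fin n) : (e1 s c c' α B a j i).map f =
      e1 s c c' (fun x => f (α x)) (B.map (Polynomial.map f)) (fun x => f (a x)) j i := by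
  simp only [e1, Polynomial.map_sub, Polynomial.map_sum, Polynomial.map_mul, gOf_map, lOf_map,
    ← derivative_map, T_map, Matrix.map_apply]

lemma e2_map (a : Ix n s c c' → S) (j j' : Fin s) :
    f (e2 s c c' a j j') = e2 s c c' (fun x => f (a x)) j j' := by
  simp only [e2, map_sub, map_sum, map_mul]
  congr 1
  · refine Finset.sum_congr rfl fun i _ => ?_
    rw [← gOf_map, ← eval_map_apply, map_zero]
  · split_ifs <;> simp

/-- The universal equations. -/
def eqs (α : Fin m → R) (B : Matrix (Fin n) (Fin n) R[X]) :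
    Set (MvPolynomial (Ix n s c c') R) :=
  Set.range (fun x : Fin s × Fin n × ℕ => (e1 s c c' (fun j => MvPolynomial.C (α j))
      (B.map (Polynomial.map MvPolynomial.C)) MvPolynomial.X x.1 x.2.1).coeff x.2.2) ∪
    Set.range (fun x : Fin s × Fin s => e2 s c c' MvPolynomial.X x.1 x.2)

lemma eqs_iff {k : Type*} [Field k] (φ : R →+* k) (α : Fin m → R)
    (B : Matrix (Fin n) (Fin n) R[X]) (a : Ix n s c c' → k) :
    (∀ F ∈ eqs s c c' α B, MvPolynomial.eval₂ φ a F = 0) ↔
      (∀ j i, e1 s c c' (fun j => φ (α j)) (B.map (Polynomial.map φ)) a j i = 0) ∧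
      ∀ j j', e2 s c c' a j j' = 0 := by
  have hX : (fun x => MvPolynomial.eval₂Hom φ a (MvPolynomial.X x)) = a := by
    funext x
    rw [MvPolynomial.eval₂Hom_X']
  have hC : (MvPolynomial.eval₂Hom φ a).comp MvPolynomial.C = φ := by
    ext x
    rw [RingHom.comp_apply, MvPolynomial.eval₂Hom_C]
  have h1 : ∀ j i, (e1 s c c' (fun j => MvPolynomial.C (α j))
      (B.map (Polynomial.map MvPolynomial.C)) MvPolynomial.X j i).map
        (MvPolynomial.eval₂Hom φ a) =
      e1 s c c' (fun j => φ (α j)) (B.map (Polynomial.map φ)) a j i := by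
    intro j i
    rw [e1_map, hX]
    congr 1
    · funext x
      rw [MvPolynomial.eval₂Hom_C]
    · ext1 i l
      rw [Matrix.map_apply, Matrix.map_apply, Matrix.map_apply, Polynomial.map_map, hC]
  have h2 : ∀ j j', MvPolynomial.eval₂Hom φ a (e2 s c c' MvPolynomial.X j j') =
      e2 s c c' a j j' := by
    intro j j'
    rw [e2_map, hX]
  constructor
  · intro h
    refine ⟨fun j i => ?_, fun j j' => ?_⟩
    · rw [← h1]
      ext t
      rw [coeff_map, coeff_zero]
      exact h _ (Or.inl ⟨(j, i, t), rfl⟩)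
    · rw [← h2]
      exact h _ (Or.inr ⟨(j, j'), rfl⟩)
  · rintro ⟨h3, h4⟩ F (⟨⟨j, i, t⟩, rfl⟩ | ⟨⟨j, j'⟩, rfl⟩)
    · show MvPolynomial.eval₂Hom φ a _ = 0
      rw [← coeff_map, h1, h3, coeff_zero]
    · show MvPolynomial.eval₂Hom φ a _ = 0
      rw [h2, h4]

lemma hasInv_iff {k : Type*} [Field k] (α : Fin m → k) (B : Matrix (Fin n) (Fin n) k[X]) :
    HasInv α B s c c' ↔ ∃ a : Ix n s c c' → k, (∀ j i, e1 s c c' α B a j i = 0) ∧
      ∀ j j', e2 s c c' a j j' = 0 := by
  classical
  constructor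
  · rintro ⟨g, Λ, hg, hΛ, hnab, hind⟩
    obtain ⟨A, hA⟩ := exists_dual hind
    let a : Ix n s c c' → k := fun x => match x with
      | Sum.inl (j, i, t) => (g j i).coeff t
      | Sum.inr (Sum.inl (l, j, t)) => (Λ l j).coeff t
      | Sum.inr (Sum.inr (j, i)) => A j i
    have h1 : ∀ j i, gOf s c c' a j i = g j i := by
      intro j i
      unfold gOf
      rw [Fin.sum_univ_eq_sum_range (fun t => C ((g j i).coeff t) * X ^ t) (c + 1)]
      exact ((g j i).as_sum_range_C_mul_X_pow' (Nat.lt_succ_of_le (hg j i))).symm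
    have h2 : ∀ l j, lOf s c c' a l j = Λ l j := by
      intro l j
      unfold lOf
      rw [Fin.sum_univ_eq_sum_range (fun t => C ((Λ l j).coeff t) * X ^ t) (c' + 1)]
      exact ((Λ l j).as_sum_range_C_mul_X_pow' (Nat.lt_succ_of_le (hΛ l j))).symm
    refine ⟨a, fun j i => ?_, fun j j' => ?_⟩
    · have h3 := congrFun (hnab j) i
      simp only [nab, Matrix.mulVec, dotProduct, Finset.sum_apply, Pi.smul_apply,
        smul_eq_mul] at h3
      simp only [e1, h1, h2]
      rw [h3, sub_self]
    · simp only [e2, h1]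
      rw [sub_eq_zero]
      exact hA j j'
  · rintro ⟨a, h1, h2⟩
    refine ⟨gOf s c c' a, Matrix.of (lOf s c c' a), fun j i => ?_, fun l j => ?_, fun j => ?_,
      fun γ hγ => ?_⟩
    · refine natDegree_sum_le_of_forall_le _ _ fun t _ => ?_
      exact (natDegree_C_mul_X_pow_le _ _).trans (Nat.lt_succ_iff.mp t.2)
    · rw [Matrix.of_apply]
      refine natDegree_sum_le_of_forall_le _ _ fun t _ => ?_
      exact (natDegree_C_mul_X_pow_le _ _).trans (Nat.lt_succ_iff.mp t.2)
    · ext1 i
      have h3 := h1 j i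
      rw [e1, sub_eq_zero] at h3
      simp only [nab, Matrix.mulVec, dotProduct, Finset.sum_apply, Pi.smul_apply, smul_eq_mul,
        Matrix.of_apply]
      exact h3
    · ext1 j
      have h3 : ∑ j', γ j' * ∑ i, a (Sum.inr (Sum.inr (j, i))) * (gOf s c c' a j' i).eval 0 =
          γ j := by
        rw [Finset.sum_eq_single j]
        · have h4 := h2 j j
          rw [e2, if_pos rfl, sub_eq_zero] at h4
          rw [h4, mul_one]
        · intro j' _ hj'
          have h4 := h2 j j'
          rw [e2, if_neg (Ne.symm hj'), sub_zero] at h4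
          rw [h4, mul_zero]
        · intro h; exact absurd (Finset.mem_univ _) h
      rw [← h3, Pi.zero_apply]
      simp only [Finset.mul_sum]
      rw [Finset.sum_comm]
      refine Finset.sum_eq_zero fun i _ => ?_
      calc _ = a (Sum.inr (Sum.inr (j, i))) * ∑ j', γ j' * (gOf s c c' a j' i).eval 0 := by
            rw [Finset.mul_sum]
            exact Finset.sum_congr rfl fun j' _ => by ring
        _ = 0 := by rw [hγ i, mul_zero]

/-- Invariant subspaces of bounded degree lift. -/
theorem hasInv_lift [IsDomain R] {E : Type*} [Field E] [IsAlgClosed E] (ι : R →+* E)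
    (hι : Function.Injective ι) (α : Fin m → R) (B : Matrix (Fin n) (Fin n) R[X]) :
    ∃ d : R, d ≠ 0 ∧ ∀ (k : Type*) [Field k] (φ : R →+* k), φ d ≠ 0 →
      HasInv (fun j => φ (α j)) (B.map (Polynomial.map φ)) s c c' →
      HasInv (fun j => ι (α j)) (B.map (Polynomial.map ι)) s c c' := by
  obtain ⟨d, hd, h⟩ := ns_lift ι hι (eqs s c c' α B)
  refine ⟨d, hd, fun k _ φ hφ hk => ?_⟩
  rw [hasInv_iff] at hk ⊢
  obtain ⟨a, ha⟩ := hk
  obtain ⟨a', ha'⟩ := h k φ hφ ⟨a, (eqs_iff s c c' φ α B a).mpr ha⟩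
  exact ⟨a', (eqs_iff s c c' ι α B a').mp ha'⟩

end

end Pool.Agent.X98.FL
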