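import Mathlib

set_option autoImplicit false

open Polynomial

namespace Pool.Agent.X98.FL

variable {k : Type*} [Field k] {n m : ℕ}

/-- The vector has weighted degree at most `d`. -/
def Bd (v : Fin n → ℕ) (d : ℕ) (g : Fin n → k[X]) : Prop :=
  ∀ i t, d < t + v i → (g i).coeff t = 0

/-- The vector of the coefficients of weighted degree `d`. -/
def lev (v : Fin n → ℕ) (d : ℕ) (g : Fin n → k[X]) : Fin n → k :=
  fun i => if v i ≤ d then (g i).coeff (d - v i) else 0

lemma Bd.mono {v : Fin n → ℕ} {d d' : ℕ} {g : Fin n → k[X]} (h : Bd v d g) (hd : d ≤ d') :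
    Bd v d' g := fun i t ht => h i t (by omega)

lemma Bd.sum {ι : Type*} (s : Finset ι) {v : Fin n → ℕ} {d : ℕ} {g : ι → Fin n → k[X]}
    (h : ∀ j ∈ s, Bd v d (g j)) : Bd v d (∑ j ∈ s, g j) := by
  intro i t ht
  rw [Finset.sum_apply, finsetSum_coeff]
  exact Finset.sum_eq_zero fun j hj => h j hj i t ht

lemma Bd.sub {v : Fin n → ℕ} {d : ℕ} {g g' : Fin n → k[X]} (h : Bd v d g) (h' : Bd v d g') :
    Bd v d (g - g') := by
  intro i t ht
  rw [Pi.sub_apply, coeff_sub, h i t ht, h' i t ht, sub_zero]

lemma Bd.mul {v : Fin n → ℕ} {d a : ℕ} {g : Fin n → k[X]} {u : k[X]} (hu : u.natDegree ≤ a)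
    (h : Bd v d g) : Bd v (a + d) (u • g) := by
  intro i t ht
  rw [Pi.smul_apply, smul_eq_mul, coeff_mul]
  refine Finset.sum_eq_zero fun x hx => ?_
  rw [Finset.HasAntidiagonal.mem_antidiagonal] at hx
  by_cases hxa : a < x.1
  · rw [coeff_eq_zero_of_natDegree_lt (by omega), zero_mul]
  · rw [h i x.2 (by omega), mul_zero]

lemma Bd.natDegree_le {v : Fin n → ℕ} {d : ℕ} {g : Fin n → k[X]} (h : Bd v d g) (i : Fin n) :
    (g i).natDegree ≤ d - v i := by
  rw [natDegree_le_iff_coeff_eq_zero]
  intro t ht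
  exact h i t (by omega)

lemma Bd.eq_zero {v : Fin n → ℕ} {d : ℕ} {g : Fin n → k[X]} (h : Bd v d g) {i : Fin n}
    (hi : d < v i) : g i = 0 := by
  ext t
  rw [coeff_zero]
  exact h i t (by omega)

lemma lev_mul {v : Fin n → ℕ} {d a : ℕ} {g : Fin n → k[X]} {u : k[X]} (hu : u.natDegree ≤ a)
    (h : Bd v d g) : lev v (a + d) (u • g) = u.coeff a • lev v d g := by
  ext i
  rw [Pi.smul_apply, smul_eq_mul, lev, lev]
  by_cases hi : v i ≤ d
  · rw [if_pos (by omega), if_pos hi, Pi.smul_apply, smul_eq_mul]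
    have h1 : a + d - v i = a + (d - v i) := by omega
    rw [h1, coeff_mul_add_eq_of_natDegree_le hu (h.natDegree_le i)]
  · rw [if_neg hi, mul_zero]
    split_ifs
    · rw [Pi.smul_apply, h.eq_zero (by omega), smul_zero, coeff_zero]
    · rfl

lemma lev_sum {ι : Type*} (s : Finset ι) (v : Fin n → ℕ) (d : ℕ) (g : ι → Fin n → k[X]) :
    lev v d (∑ j ∈ s, g j) = ∑ j ∈ s, lev v d (g j) := by
  ext i
  rw [Finset.sum_apply]
  simp only [lev, Finset.sum_apply]
  split_ifs
  · rw [finsetSum_coeff]
  · simp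

lemma lev_sub (v : Fin n → ℕ) (d : ℕ) (g g' : Fin n → k[X]) :
    lev v d (g - g') = lev v d g - lev v d g' := by
  ext i
  simp only [lev, Pi.sub_apply, coeff_sub]
  split_ifs
  · rfl
  · simp

lemma lev_eq_zero {v : Fin n → ℕ} {d e : ℕ} {g : Fin n → k[X]} (h : Bd v d g) (hd : d < e) :
    lev v e g = 0 := by
  ext i
  simp only [lev, Pi.zero_apply]
  split_ifs with hi
  · exact h i _ (by omega)
  · rfl

/-- If the top coefficients vanish, the weighted degree is smaller. -/
lemma Bd.lt_of_lev {v : Fin n → ℕ} {d : ℕ} {g : Fin n → k[X]} (h : Bd v d g)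
    (h0 : lev v d g = 0) : g = 0 ∨ ∃ e, e < d ∧ Bd v e g := by
  have h1 : ∀ i t, d ≤ t + v i → (g i).coeff t = 0 := by
    intro i t ht
    rcases Nat.eq_or_lt_of_le ht with h2 | h2
    · have h3 := congrFun h0 i
      simp only [lev, Pi.zero_apply] at h3
      rw [if_pos (by omega)] at h3
      have h4 : d - v i = t := by omega
      rw [h4] at h3
      exact h3
    · exact h i t h2
  rcases Nat.eq_zero_or_pos d with hd | hd
  · left
    ext i t
    rw [Pi.zero_apply, coeff_zero]
    exact h1 i t (by omega)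
  · right
    exact ⟨d - 1, by omega, fun i t ht => h1 i t (by omega)⟩

/-- Replacing a member of an independent family. -/
lemma indep_update {g : Fin m → Fin n → k[X]} (hi : LinearIndependent k[X] g) {j₀ : Fin m}
    {q : k[X]} (hq : q ≠ 0) {g' : Fin n → k[X]} {u : Fin m → k[X]} (hu : u j₀ ≠ 0)
    (h : q • g' = ∑ j, u j • g j) : LinearIndependent k[X] (Function.update g j₀ g') := by
  classical
  rw [Fintype.linearIndependent_iff] at hi ⊢
  intro a ha
  have h1 : ∑ j, (if j = j₀ then a j₀ * u j₀ else q * a j + a j₀ * u j) • g j = 0 := by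
    have h2 : q • (∑ j, a j • Function.update g j₀ g' j) = 0 := by rw [ha, smul_zero]
    have h3 : ∑ j, a j • Function.update g j₀ g' j =
        a j₀ • g' + ∑ j ∈ Finset.univ.erase j₀, a j • g j := by
      rw [← Finset.add_sum_erase _ _ (Finset.mem_univ j₀), Function.update_self]
      congr 1
      refine Finset.sum_congr rfl fun j hj => ?_
      rw [Function.update_of_ne (Finset.ne_of_mem_erase hj)]
    rw [h3, smul_add, smul_comm, h, Finset.smul_sum, Finset.smul_sum] at h2
    rw [← h2, ← Finset.add_sum_erase _ _ (Finset.mem_univ j₀),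
      ← Finset.add_sum_erase _ (fun j => a j₀ • u j • g j) (Finset.mem_univ j₀), add_assoc,
      ← Finset.sum_add_distrib]
    congr 1
    · rw [if_pos rfl, smul_smul]
    · refine Finset.sum_congr rfl fun j hj => ?_
      rw [if_neg (Finset.ne_of_mem_erase hj), add_smul, smul_smul, smul_smul, add_comm]
  have h2 := hi _ h1
  have h3 : a j₀ = 0 := by
    have := h2 j₀
    rw [if_pos rfl] at this
    exact (mul_eq_zero.mp this).resolve_right hu
  intro j
  by_cases hj : j = j₀
  · rw [hj, h3]
  · have := h2 j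
    rw [if_neg hj, h3, zero_mul, add_zero] at this
    exact (mul_eq_zero.mp this).resolve_left hq

/-- A basis of a saturated submodule with minimal weighted degrees. -/
theorem exists_min (V : Submodule k[X] (Fin n → k[X]))
    (hsat : ∀ (α : k) (g : Fin n → k[X]), (X - C α) • g ∈ V → g ∈ V) (v : Fin n → ℕ)
    (g₀ : Fin m → Fin n → k[X]) (d₀ : Fin m → ℕ) (hg₀ : ∀ j, g₀ j ∈ V)
    (hd₀ : ∀ j, Bd v (d₀ j) (g₀ j)) (hi₀ : LinearIndependent k[X] g₀) :
    ∃ (g : Fin m → Fin n → k[X]) (d : Fin m → ℕ), (∀ j, g j ∈ V) ∧ (∀ j, Bd v (d j) (g j)) ∧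
      LinearIndependent k[X] g ∧ ∑ j, d j ≤ ∑ j, d₀ j ∧
      (∀ c : Fin m → k, ∑ j, c j • lev v (d j) (g j) = 0 → c = 0) ∧
      (∀ (α : k) (c : Fin m → k), (∀ i, ∑ j, c j * (g j i).eval α = 0) → c = 0) := by
  classical
  induction hD : ∑ j, d₀ j using Nat.strong_induction_on generalizing g₀ d₀ with
  | _ D ih =>
    subst hD
    -- the common step
    have hstep : ∀ (j₀ : Fin m) (q : k[X]) (g' : Fin n → k[X]) (u : Fin m → k[X]) (e : ℕ),
        q ≠ 0 → u j₀ ≠ 0 → q • g' = ∑ j, u j • g₀ j → g' ∈ V → e < d₀ j₀ → Bd v e g' →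
        ∃ (g : Fin m → Fin n → k[X]) (d : Fin m → ℕ), (∀ j, g j ∈ V) ∧
          (∀ j, Bd v (d j) (g j)) ∧ LinearIndependent k[X] g ∧ ∑ j, d j ≤ ∑ j, d₀ j ∧
          (∀ c : Fin m → k, ∑ j, c j • lev v (d j) (g j) = 0 → c = 0) ∧
          (∀ (α : k) (c : Fin m → k), (∀ i, ∑ j, c j * (g j i).eval α = 0) → c = 0) := by
      intro j₀ q g' u e hq hu hrel hgV he hB
      have hlt : ∑ j, Function.update d₀ j₀ e j < ∑ j, d₀ j := by
        refine Finset.sum_lt_sum (fun j _ => ?_) ⟨j₀, Finset.mem_univ _, ?_⟩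
        · by_cases hj : j = j₀
          · rw [hj, Function.update_self]; exact he.le
          · rw [Function.update_of_ne hj]
        · rw [Function.update_self]; exact he
      obtain ⟨g, d, h1, h2, h3, h4, h5, h6⟩ := ih _ hlt (Function.update g₀ j₀ g')
        (Function.update d₀ j₀ e) (fun j => by
          by_cases hj : j = j₀
          · rw [hj, Function.update_self]; exact hgV
          · rw [Function.update_of_ne hj]; exact hg₀ j) (fun j => by
          by_cases hj : j = j₀
          · rw [hj, Function.update_self, Function.update_self]; exact hB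
          · rw [Function.update_of_ne hj, Function.update_of_ne hj]; exact hd₀ j)
        (indep_update hi₀ hq hu hrel) rfl
      exact ⟨g, d, h1, h2, h3, h4.trans hlt.le, h5, h6⟩
    -- a member of maximal degree
    have hmax : ∀ c : Fin m → k, c ≠ 0 → ∃ j₀, c j₀ ≠ 0 ∧ ∀ j, c j ≠ 0 → d₀ j ≤ d₀ j₀ := by
      intro c hc
      obtain ⟨j, hj⟩ := Function.ne_iff.mp hc
      obtain ⟨j₀, hj₀, h1⟩ := Finset.exists_max_image (Finset.univ.filter fun j => c j ≠ 0) d₀
        ⟨j, Finset.mem_filter.mpr ⟨Finset.mem_univ _, hj⟩⟩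
      exact ⟨j₀, (Finset.mem_filter.mp hj₀).2, fun j hj =>
        h1 j (Finset.mem_filter.mpr ⟨Finset.mem_univ _, hj⟩)⟩
    by_cases hA : ∀ c : Fin m → k, ∑ j, c j • lev v (d₀ j) (g₀ j) = 0 → c = 0
    · by_cases hB : ∀ (α : k) (c : Fin m → k), (∀ i, ∑ j, c j * (g₀ j i).eval α = 0) → c = 0
      · exact ⟨g₀, d₀, hg₀, hd₀, hi₀, le_rfl, hA, hB⟩
      · push Not at hB
        obtain ⟨α, c, hc, hc0⟩ := hB
        obtain ⟨j₀, hj₀, hj₀m⟩ := hmax c hc0
        have hdvd : ∀ i, (X - C α) ∣ ∑ j, C (c j) * g₀ j i := by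
          intro i
          rw [dvd_iff_isRoot, IsRoot.def, eval_finsetSum, ← hc i]
          exact Finset.sum_congr rfl fun j _ => by rw [eval_mul, eval_C]
        choose g' hg' using hdvd
        have hrel : (X - C α) • g' = ∑ j, C (c j) • g₀ j := by
          ext1 i
          rw [Pi.smul_apply, smul_eq_mul, ← hg' i, Finset.sum_apply]
          rfl
        have hBs : Bd v (d₀ j₀) (∑ j, C (c j) • g₀ j) := by
          refine Bd.sum _ fun j _ => ?_
          by_cases hcj : c j = 0
          · rw [hcj, C_0, zero_smul]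
            intro i t _
            simp
          · have := (hd₀ j).mul (u := C (c j)) (a := 0) (natDegree_C _).le
            rw [zero_add] at this
            exact this.mono (hj₀m j hcj)
        have hgV : g' ∈ V := hsat α g' (by
          rw [hrel]
          exact Submodule.sum_mem _ fun j _ => V.smul_mem _ (hg₀ j))
        have hXα : (X - C α : k[X]) ≠ 0 := X_sub_C_ne_zero α
        -- the degree of the quotient
        have hdeg : ∀ i t, d₀ j₀ ≤ t + v i → (g' i).coeff t = 0 := by
          intro i t ht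
          by_cases h0 : g' i = 0
          · rw [h0, coeff_zero]
          · apply coeff_eq_zero_of_natDegree_lt
            have h1 : ((X - C α) * g' i).natDegree = 1 + (g' i).natDegree := by
              rw [natDegree_mul hXα h0, natDegree_X_sub_C]
            have h2 : ((X - C α) * g' i).coeff (1 + (g' i).natDegree) ≠ 0 := by
              rw [← h1]
              exact leadingCoeff_ne_zero.mpr (mul_ne_zero hXα h0)
            by_contra hcon
            apply h2
            have h3 := hBs i (1 + (g' i).natDegree) (by omega)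
            rw [← hrel] at h3
            exact h3
        have hne : g' ≠ 0 := by
          rintro rfl
          rw [smul_zero] at hrel
          have h1 := Fintype.linearIndependent_iff.mp hi₀ (fun j => C (c j)) hrel.symm j₀
          exact hj₀ (C_eq_zero.mp h1)
        have hpos : 0 < d₀ j₀ := by
          rcases Nat.eq_zero_or_pos (d₀ j₀) with h0 | h0
          · exfalso
            apply hne
            ext i t
            rw [Pi.zero_apply, coeff_zero]
            exact hdeg i t (by omega)
          · exact h0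
        exact hstep j₀ (X - C α) g' (fun j => C (c j)) (d₀ j₀ - 1) hXα
          (by rw [ne_eq, C_eq_zero]; exact hj₀) hrel hgV (by omega)
          (fun i t ht => hdeg i t (by omega))
    · push Not at hA
      obtain ⟨c, hc, hc0⟩ := hA
      obtain ⟨j₀, hj₀, hj₀m⟩ := hmax c hc0
      let u : Fin m → k[X] := fun j => if c j = 0 then 0 else C (c j) * X ^ (d₀ j₀ - d₀ j)
      have hu : ∀ j, c j ≠ 0 → (u j).natDegree ≤ d₀ j₀ - d₀ j := by
        intro j hj
        simp only [u, if_neg hj]
        exact natDegree_C_mul_X_pow_le _ _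
      have hB1 : ∀ j, Bd v (d₀ j₀) (u j • g₀ j) := by
        intro j
        by_cases hcj : c j = 0
        · simp only [u, if_pos hcj, zero_smul]
          intro i t _
          simp
        · have h1 := (hd₀ j).mul (hu j hcj)
          rwa [Nat.sub_add_cancel (hj₀m j hcj)] at h1
      have hlev : lev v (d₀ j₀) (∑ j, u j • g₀ j) = 0 := by
        rw [lev_sum, ← hc]
        refine Finset.sum_congr rfl fun j _ => ?_
        by_cases hcj : c j = 0
        · simp only [u, if_pos hcj, zero_smul, hcj]
          ext i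
          simp [lev]
        · have h1 := lev_mul (hu j hcj) (hd₀ j)
          rw [Nat.sub_add_cancel (hj₀m j hcj)] at h1
          rw [h1]
          congr 1
          simp only [u, if_neg hcj]
          rw [coeff_C_mul_X_pow, if_pos rfl]
      have hu0 : u j₀ ≠ 0 := by
        simp only [u, if_neg hj₀]
        exact mul_ne_zero (C_ne_zero.mpr hj₀) (pow_ne_zero _ X_ne_zero)
      rcases (Bd.sum Finset.univ fun j _ => hB1 j).lt_of_lev hlev with h0 | ⟨e, he, hBe⟩
      · exfalso
        exact hu0 (Fintype.linearIndependent_iff.mp hi₀ u h0 j₀)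
      · exact hstep j₀ 1 _ u e one_ne_zero hu0 (one_smul _ _)
          (Submodule.sum_mem _ fun j _ => V.smul_mem _ (hg₀ j)) he hBe

/-- Coordinates with respect to a family which is independent at every point. -/
lemma exists_coord [IsAlgClosed k] {g : Fin m → Fin n → k[X]}
    (hev : ∀ (α : k) (c : Fin m → k), (∀ i, ∑ j, c j * (g j i).eval α = 0) → c = 0)
    (q : k[X]) (hq : q ≠ 0) (x : Fin n → k[X]) (u : Fin m → k[X])
    (h : q • x = ∑ j, u j • g j) : ∃ u' : Fin m → k[X], x = ∑ j, u' j • g j := by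
  classical
  induction hd : q.natDegree generalizing q u with
  | zero =>
    obtain ⟨a, ha⟩ := natDegree_eq_zero.mp hd
    have ha0 : a ≠ 0 := by
      rintro rfl
      apply hq
      rw [← ha, C_0]
    refine ⟨fun j => C a⁻¹ * u j, ?_⟩
    have h1 := congrArg (fun z => (C a⁻¹ : k[X]) • z) h
    simp only [← ha, smul_smul, ← C_mul, inv_mul_cancel₀ ha0, C_1, one_smul, Finset.smul_sum] at h1
    exact h1
  | succ d ih =>
    have hdeg : q.degree ≠ 0 := by
      rw [degree_eq_natDegree hq, hd]
      exact_mod_cast Nat.succ_ne_zero d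
    obtain ⟨α, hα⟩ := IsAlgClosed.exists_root q hdeg
    obtain ⟨q', hq'⟩ := dvd_iff_isRoot.mpr hα
    have hq'0 : q' ≠ 0 := by
      rintro rfl
      apply hq
      rw [hq', mul_zero]
    have hXα : (X - C α : k[X]) ≠ 0 := X_sub_C_ne_zero α
    have h1 := hev α (fun j => (u j).eval α) (fun i => by
      have h2 := congrArg (fun z : k[X] => z.eval α) (congrFun h i)
      simp only [Pi.smul_apply, smul_eq_mul, eval_mul, Finset.sum_apply, eval_finsetSum] at h2
      rw [IsRoot.def.mp hα, zero_mul] at h2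
      exact h2.symm)
    have h2 : ∀ j, ∃ w, u j = (X - C α) * w := fun j =>
      dvd_iff_isRoot.mpr (congrFun h1 j)
    choose u' hu' using h2
    refine ih q' hq'0 u' ?_ ?_
    · ext1 i
      have h3 := congrFun h i
      rw [Finset.sum_apply, Pi.smul_apply, smul_eq_mul] at h3 ⊢
      apply mul_left_cancel₀ hXα
      rw [← mul_assoc, ← hq', h3, Finset.mul_sum]
      refine Finset.sum_congr rfl fun j _ => ?_
      rw [Pi.smul_apply, Pi.smul_apply, smul_eq_mul, smul_eq_mul, hu' j]
      ring
    · have h3 : q.natDegree = 1 + q'.natDegree := by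
        rw [hq', natDegree_mul hXα hq'0, natDegree_X_sub_C]
      omega

/-- Degrees of the coordinates. -/
lemma coord_deg {v : Fin n → ℕ} {g : Fin m → Fin n → k[X]} {d : Fin m → ℕ}
    (hd : ∀ j, Bd v (d j) (g j))
    (hlev : ∀ c : Fin m → k, ∑ j, c j • lev v (d j) (g j) = 0 → c = 0)
    {D : ℕ} {x : Fin n → k[X]} (hx : Bd v D x) {u : Fin m → k[X]} (h : x = ∑ j, u j • g j)
    (j : Fin m) : u j = 0 ∨ (u j).natDegree + d j ≤ D := by
  classical
  by_contra hcon
  push Not at hcon
  obtain ⟨hj, hjD⟩ := hcon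
  obtain ⟨j₀, hj₀, hmax⟩ := Finset.exists_max_image (Finset.univ.filter fun j => u j ≠ 0)
    (fun j => (u j).natDegree + d j) ⟨j, Finset.mem_filter.mpr ⟨Finset.mem_univ _, hj⟩⟩
  rw [Finset.mem_filter] at hj₀
  set e := (u j₀).natDegree + d j₀ with he
  have hDe : D < e := lt_of_lt_of_le hjD (hmax j (Finset.mem_filter.mpr ⟨Finset.mem_univ _, hj⟩))
  have h1 := lev_eq_zero hx hDe
  rw [h, lev_sum] at h1
  have h2 : ∀ j, lev v e (u j • g j) = (if d j ≤ e then (u j).coeff (e - d j) else 0) •
      lev v (d j) (g j) := by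
    intro j
    by_cases huj : u j = 0
    · rw [huj]
      ext i
      simp [lev]
    · have h3 : (u j).natDegree + d j ≤ e :=
        hmax j (Finset.mem_filter.mpr ⟨Finset.mem_univ _, huj⟩)
      have h4 : e = (e - d j) + d j := by omega
      rw [if_pos (by omega)]
      conv_lhs => rw [h4]
      rw [lev_mul (by omega) (hd j)]
  have h3 := hlev (fun j => if d j ≤ e then (u j).coeff (e - d j) else 0) (by
    rw [← h1]
    exact Finset.sum_congr rfl fun j _ => (h2 j).symm)
  have h4 := congrFun h3 j₀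
  simp only [Pi.zero_apply] at h4
  rw [if_pos (by omega)] at h4
  have h5 : e - d j₀ = (u j₀).natDegree := by omega
  rw [h5] at h4
  exact hj₀.2 (leadingCoeff_eq_zero.mp h4)

end Pool.Agent.X98.FL
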