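import Pool.Agent.X98.FL.Factor
import Pool.Agent.X98.PC.KLev

set_option autoImplicit false

open Polynomial

namespace Pool.Agent.X98.FL

open Pool.Agent.W432.PC (T Tc T_eq T_monic T_ne T_natDegree T_map ddx ddx_algebraMap
  exists_closed_point)
open Pool.Agent.W432.WB (IsFuchs resMat infMat RedExp cw WDeg_comp exists_ring exists_lift geo
  redExp_loc redExp_inf HasExps indLoc_map indInf_map)
open Pool.Agent.W432.HK (map_ne_of_large FuchsianWith CommonDen)
open Pool.Agent.X98.PC (ddxHom ddxHom_mul ddxHom_eq ddxHom_algebraMap clear ht)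

lemma comp_mulVec {S : Type*} [CommRing S] {m n : ℕ} (α : Fin m → S) (Q : Fin (n + 1) → S[X])
    (y : Fin n → S[X]) (i : Fin n) : (W432.WB.comp α Q).mulVec y i =
      ((i : ℕ) : S[X]) * derivative (T α) * y i +
        (if h : (i : ℕ) + 1 < n then y ⟨(i : ℕ) + 1, h⟩ else
          -∑ l : Fin n, Q l.castSucc * y l) := by
  rw [Matrix.mulVec, dotProduct]
  simp only [W432.WB.comp, Matrix.of_apply, sub_mul, add_mul, Finset.sum_sub_distrib,
    Finset.sum_add_distrib]
  have h3 : ∑ l : Fin n, (if i = l then ((i : ℕ) : S[X]) * derivative (T α) else 0) * y l =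
      ((i : ℕ) : S[X]) * derivative (T α) * y i := by
    rw [Finset.sum_eq_single i]
    · rw [if_pos rfl]
    · intro l _ hl
      rw [if_neg (Ne.symm hl), zero_mul]
    · intro h; exact absurd (Finset.mem_univ _) h
  rw [h3, add_sub_assoc]
  congr 1
  by_cases hi : (i : ℕ) + 1 < n
  · rw [dif_pos hi]
    have h4 : ∑ l : Fin n, (if (l : ℕ) = i + 1 then (1 : S[X]) else 0) * y l =
        y ⟨(i : ℕ) + 1, hi⟩ := by
      rw [Finset.sum_eq_single ⟨(i : ℕ) + 1, hi⟩]
      · simp
      · intro l _ hl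
        rw [if_neg (fun h => hl (Fin.ext h)), zero_mul]
      · intro h; exact absurd (Finset.mem_univ _) h
    rw [h4]
    have h5 : ∑ l : Fin n, (if (i : ℕ) + 1 = n then Q l.castSucc else 0) * y l = 0 :=
      Finset.sum_eq_zero fun l _ => by rw [if_neg (by omega), zero_mul]
    rw [h5, sub_zero]
  · rw [dif_neg hi]
    have h4 : ∑ l : Fin n, (if (l : ℕ) = i + 1 then (1 : S[X]) else 0) * y l = 0 :=
      Finset.sum_eq_zero fun l _ => by
        rw [if_neg (by have := l.2; omega), zero_mul]
    rw [h4, zero_sub]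
    congr 1
    refine Finset.sum_congr rfl fun l _ => ?_
    rw [if_pos (by have := i.2; omega)]

section pr

variable {k : Type*} [Field k] {s : ℕ}

/-- The numerators of the remainders of `∂ ^ i` for `r = A / B`. -/
noncomputable def Pr (A : Fin s → k[X]) (B : k[X]) : ℕ → Fin s → k[X]
  | 0 => fun j => if (j : ℕ) = 0 then 1 else 0
  | i + 1 => fun j => derivative (Pr A B i j) * B - (i : k[X]) * (Pr A B i j * derivative B) +
      B * (if (j : ℕ) = 0 then 0 else Pr A B i ⟨(j : ℕ) - 1, by omega⟩) -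
      Pr A B i ⟨s - 1, by have := j.2; omega⟩ * A j

lemma Pr_succ (A : Fin s → k[X]) (B : k[X]) (i : ℕ) (j : Fin s) : Pr A B (i + 1) j =
    derivative (Pr A B i j) * B - (i : k[X]) * (Pr A B i j * derivative B) +
      B * (if (j : ℕ) = 0 then 0 else Pr A B i ⟨(j : ℕ) - 1, by omega⟩) -
      Pr A B i ⟨s - 1, by have := j.2; omega⟩ * A j := rfl

lemma Pr_map {K : Type*} [Field K] (f : k →+* K) (A : Fin s → k[X]) (B : k[X]) (i : ℕ)
    (j : Fin s) : (Pr A B i j).map f = Pr (fun j => (A j).map f) (B.map f) i j := by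
  induction i generalizing j with
  | zero =>
    simp only [Pr]
    split_ifs <;> simp
  | succ i ih =>
    rw [Pr_succ, Pr_succ]
    simp only [Polynomial.map_sub, Polynomial.map_add, Polynomial.map_mul, ih, ← derivative_map,
      Polynomial.map_natCast]
    congr 2
    split_ifs
    · simp
    · rw [ih]

lemma Pr_deg {A : Fin s → k[X]} {B : k[X]} {h : ℕ} (hA : ∀ j, (A j).natDegree ≤ h)
    (hB : B.natDegree ≤ h) (i : ℕ) (j : Fin s) : (Pr A B i j).natDegree ≤ i * h := by
  induction i generalizing j with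
  | zero =>
    simp only [Pr]
    split_ifs <;> simp
  | succ i ih =>
    rw [Pr_succ, add_mul, one_mul]
    have h1 : ∀ q : k[X], q.natDegree ≤ i * h → (derivative q * B).natDegree ≤ i * h + h :=
      fun q hq => natDegree_mul_le.trans (Nat.add_le_add
        ((natDegree_derivative_le q).trans ((Nat.sub_le _ _).trans hq)) hB)
    refine (natDegree_sub_le _ _).trans (max_le ((natDegree_add_le _ _).trans (max_le
      ((natDegree_sub_le _ _).trans (max_le (h1 _ (ih j)) ?_)) ?_)) ?_)
    · rw [← C_eq_natCast]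
      refine (natDegree_C_mul_le _ _).trans (natDegree_mul_le.trans (Nat.add_le_add (ih j)
        ((natDegree_derivative_le B).trans ((Nat.sub_le _ _).trans hB))))
    · refine natDegree_mul_le.trans ?_
      rw [add_comm]
      refine Nat.add_le_add ?_ hB
      split_ifs
      · simp
      · exact ih _
    · exact natDegree_mul_le.trans (Nat.add_le_add (ih _) (hA j))

lemma Pr_small (A : Fin s → k[X]) (B : k[X]) (i : ℕ) (hi : i < s) (j : Fin s) :
    Pr A B i j = if (j : ℕ) = i then B ^ i else 0 := by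
  induction i generalizing j with
  | zero => simp [Pr]
  | succ i ih =>
    rw [Pr_succ, ih (by omega), ih (by omega) ⟨s - 1, _⟩]
    have h1 : ¬ ((⟨s - 1, by omega⟩ : Fin s) : ℕ) = i := by
      show ¬ (s - 1 = i)
      omega
    rw [if_neg h1, zero_mul, sub_zero]
    have h2 : (if (j : ℕ) = 0 then 0 else Pr A B i ⟨(j : ℕ) - 1, by omega⟩) =
        if (j : ℕ) = i + 1 then B ^ i else 0 := by
      by_cases hj : (j : ℕ) = 0
      · rw [if_pos hj, if_neg (by omega)]
      · rw [if_neg hj, ih (by omega)]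
        by_cases hj' : (j : ℕ) = i + 1
        · rw [if_pos hj', if_pos (by show (j : ℕ) - 1 = i; omega)]
        · rw [if_neg hj', if_neg (by show ¬ ((j : ℕ) - 1 = i); omega)]
    rw [h2]
    by_cases hji : (j : ℕ) = i
    · rw [if_pos hji, if_neg (by omega), if_neg (by omega), mul_zero, add_zero, derivative_pow]
      rcases Nat.eq_zero_or_pos i with h3 | h3
      · rw [h3]; simp
      · have h4 : B ^ i = B ^ (i - 1) * B := by
          rw [← pow_succ]; congr 1; omega
        conv_lhs => enter [2]; rw [h4]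
        rw [C_eq_natCast]
        ring
    · rw [if_neg hji]
      by_cases hj' : (j : ℕ) = i + 1
      · rw [if_pos hj', if_pos hj']
        simp only [derivative_zero, zero_mul, mul_zero, sub_zero, zero_add]
        rw [pow_succ, mul_comm]
      · rw [if_neg hj', if_neg hj']
        simp

lemma rem_Pr {r : Fin s → RatFunc k} {A : Fin s → k[X]} {B : k[X]}
    (hr : ∀ j, r j * algebraMap k[X] (RatFunc k) B = algebraMap k[X] (RatFunc k) (A j)) (i : ℕ)
    (j : Fin s) : rem r i j * algebraMap k[X] (RatFunc k) B ^ i =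
      algebraMap k[X] (RatFunc k) (Pr A B i j) := by
  set L := algebraMap k[X] (RatFunc k) with hL
  induction i generalizing j with
  | zero =>
    simp only [rem, Pr, pow_zero, mul_one]
    split_ifs <;> simp
  | succ i ih =>
    have h1 := congrArg (ddxHom k) (ih j)
    rw [ddxHom_mul, ddxHom_algebraMap, ← map_pow, ddxHom_algebraMap, ← hL, map_pow L B i] at h1
    have h2 : L B * L (derivative (B ^ i)) = (i : RatFunc k) * L (derivative B) * L B ^ i := by
      rw [derivative_pow, ← map_mul]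
      rcases Nat.eq_zero_or_pos i with h3 | h3
      · rw [h3]; simp
      · have h4 : B ^ i = B ^ (i - 1) * B := by
          rw [← pow_succ]; congr 1; omega
        rw [← map_pow, h4, C_eq_natCast, ← map_natCast L, ← map_mul, ← map_mul]
        congr 1
        ring
    have h3 : rem r (i + 1) j = ddxHom k (rem r i j) +
        (if (j : ℕ) = 0 then 0 else rem r i ⟨(j : ℕ) - 1, by omega⟩) -
        rem r i ⟨s - 1, by have := j.2; omega⟩ * r j := rfl
    have h4 : (if (j : ℕ) = 0 then 0 else rem r i ⟨(j : ℕ) - 1, by omega⟩) * L B ^ i =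
        L (if (j : ℕ) = 0 then 0 else Pr A B i ⟨(j : ℕ) - 1, by omega⟩) := by
      split_ifs
      · simp
      · exact ih _
    have h5 := ih ⟨s - 1, by have := j.2; omega⟩
    rw [h3, Pr_succ]
    simp only [map_sub, map_add, map_mul, map_natCast]
    rw [← h1, ← h4, ← h5, ← ih j, ← hr j, pow_succ (L B) i]
    linear_combination (-(rem r i j)) * h2

/-- The frame of the invariant subspace defined by a right factor. -/
noncomputable def fr {m : ℕ} (n : ℕ) (α : Fin m → k) (A : Fin s → k[X]) (B : k[X]) (j : Fin s)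
    (i : Fin n) : k[X] :=
  T α ^ (i : ℕ) * B ^ (n - (i : ℕ)) * Pr A B i j

lemma fr_indep {m n : ℕ} (α : Fin m → k) (A : Fin s → k[X]) {B : k[X]} (hB : B ≠ 0)
    (hsn : s ≤ n) : LinearIndependent k[X] (fr n α A B) := by
  rw [Fintype.linearIndependent_iff]
  intro c hc j
  have h1 := congrFun hc ⟨j, by have := j.2; omega⟩
  rw [Finset.sum_apply, Pi.zero_apply, Finset.sum_eq_single j] at h1
  · simp only [Pi.smul_apply, smul_eq_mul, fr] at h1
    rw [Pr_small A B j j.2, if_pos rfl] at h1
    exact (mul_eq_zero.mp h1).resolve_right (mul_ne_zero (mul_ne_zero (pow_ne_zero _ T_ne)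
      (pow_ne_zero _ hB)) (pow_ne_zero _ hB))
  · intro l _ hl
    simp only [Pi.smul_apply, smul_eq_mul, fr]
    rw [Pr_small A B j j.2, if_neg (fun h => hl (Fin.ext h)), mul_zero, mul_zero]
  · intro h; exact absurd (Finset.mem_univ _) h

lemma fr_bd {m n : ℕ} (α : Fin m → k) {A : Fin s → k[X]} {B : k[X]} {h : ℕ}
    (hA : ∀ j, (A j).natDegree ≤ h) (hB : B.natDegree ≤ h) (j : Fin s) :
    Bd (cw m n) (n * (m + h)) (fr n α A B j) := by
  intro i t ht
  apply coeff_eq_zero_of_natDegree_lt
  suffices hsuf : (fr n α A B j i).natDegree + cw m n i ≤ n * (m + h) by omega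
  have hi := i.2
  have h1 : (fr n α A B j i).natDegree ≤ i * m + (n - i) * h + i * h := by
    refine natDegree_mul_le.trans (Nat.add_le_add (natDegree_mul_le.trans (Nat.add_le_add ?_ ?_))
      (Pr_deg hA hB i j))
    · rw [natDegree_pow, T_natDegree]
    · rw [natDegree_pow]
      exact Nat.mul_le_mul_left _ hB
  obtain ⟨e, he⟩ : ∃ e, n = e + i := ⟨n - i, by omega⟩
  have h2 : cw m n i ≤ e * m := by
    unfold cw
    exact Nat.mul_le_mul (by omega) (Nat.sub_le _ _)
  have h3 : n - (i : ℕ) = e := by omega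
  rw [h3] at h1
  have h4 : n * (m + h) = (i : ℕ) * m + e * h + i * h + e * m := by
    conv_lhs => rw [he]
    ring
  omega

lemma pow_deriv (t : k[X]) (i : ℕ) : t * derivative (t ^ i) = (i : k[X]) * derivative t * t ^ i := by
  rw [derivative_pow]
  rcases Nat.eq_zero_or_pos i with h3 | h3
  · rw [h3]; simp
  · have h4 : t ^ i = t ^ (i - 1) * t := by
      rw [← pow_succ]; congr 1; omega
    rw [h4, C_eq_natCast]
    ring

/-- The equation of the frame. -/
lemma fr_nab {m n : ℕ} (α : Fin m → k) {Q : Fin (n + 1) → k[X]} (hQ : Q (Fin.last n) = 1)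
    (A : Fin s → k[X]) (B : k[X])
    (hrel : ∀ j, ∑ l : Fin (n + 1), Q l * (T α ^ (l : ℕ) * B ^ (n - (l : ℕ)) * Pr A B l j) = 0)
    (j : Fin s) :
    B • nab α (W432.WB.comp α Q) (fr n α A B j) =
      (if (j : ℕ) = 0 then 0 else (T α * B) • fr n α A B ⟨(j : ℕ) - 1, by omega⟩) -
      (T α * A j) • fr n α A B ⟨s - 1, by have := j.2; omega⟩ -
      ((n : k[X]) * T α * derivative B) • fr n α A B j := by
  ext1 i
  obtain ⟨e, he⟩ : ∃ e, n = e + 1 + i := ⟨n - i - 1, by have := i.2; omega⟩
  have hei : n - (i : ℕ) = e + 1 := by omega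
  have hei' : n - ((i : ℕ) + 1) = e := by omega
  -- the next component
  have hnext : (if h : (i : ℕ) + 1 < n then fr n α A B j ⟨(i : ℕ) + 1, h⟩ else
      -∑ l : Fin n, Q l.castSucc * fr n α A B j l) =
      T α ^ ((i : ℕ) + 1) * B ^ e * Pr A B ((i : ℕ) + 1) j := by
    by_cases hi : (i : ℕ) + 1 < n
    · rw [dif_pos hi]
      simp only [fr, hei']
    · rw [dif_neg hi]
      have h1 := hrel j
      rw [Fin.sum_univ_castSucc, hQ, one_mul] at h1
      simp only [Fin.val_castSucc, Fin.val_last, Nat.sub_self, pow_zero, mul_one] at h1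
      have h2 : (i : ℕ) + 1 = n := by have := i.2; omega
      have h3 : e = 0 := by omega
      rw [h2, h3, pow_zero, mul_one]
      simp only [fr]
      linear_combination -h1
  have hite : (if (j : ℕ) = 0 then (0 : Fin n → k[X]) else
      (T α * B) • fr n α A B ⟨(j : ℕ) - 1, by omega⟩) i =
      T α * B * (T α ^ (i : ℕ) * B ^ (e + 1)) *
        (if (j : ℕ) = 0 then 0 else Pr A B i ⟨(j : ℕ) - 1, by omega⟩) := by
    split_ifs
    · simp
    · simp only [Pi.smul_apply, smul_eq_mul, fr, hei]
      ring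
  rw [Pi.sub_apply, Pi.sub_apply, hite, Pi.smul_apply, Pi.smul_apply, Pi.smul_apply, nab,
    comp_mulVec, hnext]
  have h5 := Pr_succ A B i j
  simp only [smul_eq_mul, fr, hei, derivative_mul]
  have h6 := pow_deriv (T α) i
  have h7 := pow_deriv B (e + 1)
  have hn' : (n : k[X]) = (e : k[X]) + 1 + ((i : ℕ) : k[X]) := by
    conv_lhs => rw [he]
    push_cast
    ring
  rw [h5, hn']
  set P := Pr A B i j
  set U := derivative (T α ^ (i : ℕ))
  set V := derivative (B ^ (e + 1))
  push_cast at h7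
  rw [pow_succ (T α) (i : ℕ), pow_succ B e] at *
  linear_combination (-(B * (B ^ e * B) * P)) * h6 - (T α * T α ^ (i : ℕ) * P) * h7

end pr

/-- Right factors of small height in characteristic `p` give small invariant subspaces. -/
theorem modp {K : Type*} [Field K] [IsAlgClosed K] {p : ℕ} [CharP K p] {m n s : ℕ} (hm : 0 < m)
    {α : Fin m → K} (hα : Function.Injective α) {Q : Fin (n + 1) → K[X]}
    (hQ : Q (Fin.last n) = 1) (hdeg : ∀ i, (Q i).natDegree ≤ (n - i) * (m - 1))
    {N : ℕ} (hN : 0 < N) {mu : Fin m → Fin n → ℤ} {mu' : Fin n → ℤ}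
    (hloc : ∀ j, RedExp N (resMat α (W432.WB.comp α Q) j).charpoly (mu j))
    (hinf : RedExp N (infMat m (W432.WB.comp α Q) (cw m n)).charpoly mu') {A : ℕ}
    (hA : ∑ j, ∑ l, (mu j l).natAbs + ∑ l, (mu' l).natAbs ≤ A) (hsn : s ≤ n)
    (Af : Fin s → K[X]) (Bf : K[X]) (hBf : Bf ≠ 0) (h : ℕ) (hAh : ∀ j, (Af j).natDegree ≤ h)
    (hBh : Bf.natDegree ≤ h) (hrel : ∀ j, ∑ l : Fin (n + 1),
      Q l * (T α ^ (l : ℕ) * Bf ^ (n - (l : ℕ)) * Pr Af Bf l j) = 0)
    (hp : N * (s * (n * (m + h))) + s * A < p) :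
    HasInv α (W432.WB.comp α Q) s (s * A) (m - 1 + s * A) := by
  obtain ⟨g, Λ, h1, h2, h3, h4⟩ := bound hm hα (WDeg_comp hm α hdeg) hN hloc hinf hA
    (fr n α Af Bf) (fr_indep α Af hBf hsn) (fun j => by
      apply sat_of_smul hBf
      rw [fr_nab α hQ Af Bf hrel j]
      refine Submodule.sub_mem _ (Submodule.sub_mem _ ?_ (Submodule.smul_mem _ _ (sat_self _ _)))
        (Submodule.smul_mem _ _ (sat_self _ _))
      split_ifs
      · exact Submodule.zero_mem _
      · exact Submodule.smul_mem _ _ (sat_self _ _))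
    (n * (m + h)) (fr_bd α hAh hBh) hp
  exact ⟨g, Λ, fun j i => ((h1 j).natDegree_le i).trans (Nat.sub_le _ _), h2, h3, h4⟩

end Pool.Agent.X98.FL
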