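import Pool.Agent.X98.FL.SysInv
import Pool.Agent.X98.SY.RadFin

set_option autoImplicit false

open Polynomial NumberField

namespace Pool.Agent.X98.FL

open Pool.Agent.W432.PC (T Tc T_eq T_monic T_ne T_natDegree T_map ddx ddx_algebraMap)
open Pool.Agent.W432.WB (resMat infMat RedExp WDeg)
open Pool.Agent.X98.PC (ddxHom ddxHom_mul ddxHom_eq ddxHom_algebraMap clear)
open Pool.Agent.X98.SY (ht RatEigs phi_ne root_iff)

universe u v

lemma root_iff' {R F : Type*} [CommRing R] [Field F] {r : ℕ} (τ : R →+* F)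
    (m : Matrix (Fin r) (Fin r) R) (β : F) :
    (m.charpoly.map τ).eval β = 0 ↔ ∃ w : Fin r → F, w ≠ 0 ∧ (m.map τ).mulVec w = β • w := by
  rw [← Matrix.charpoly_map, Matrix.eval_charpoly, ← Matrix.exists_mulVec_eq_zero_iff]
  refine exists_congr fun w => and_congr_right fun _ => ?_
  rw [Matrix.sub_mulVec, sub_eq_zero]
  have h1 : (Matrix.scalar (Fin r) β).mulVec w = β • w := by
    ext i
    rw [Matrix.scalar_apply, Matrix.mulVec_diagonal]
    rfl
  rw [h1]
  exact eq_comm

/-- Enumeration of rational eigenvalues. -/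
lemma exps_of_rat {R : Type*} [CommRing R] {r : ℕ} (M : Matrix (Fin r) (Fin r) R)
    (ι : R →+* AlgebraicClosure ℚ)
    (h : ∀ β, (M.charpoly.map ι).eval β = 0 → ∃ q : ℚ, (q : AlgebraicClosure ℚ) = β) :
    ∃ lam : Fin r → ℚ,
      M.charpoly.map ι = ∏ l, (X - C ((lam l : ℚ) : AlgebraicClosure ℚ)) := by
  classical
  rw [← Matrix.charpoly_map] at h ⊢
  set P := (M.map ι).charpoly with hP
  have hPm : P.Monic := Matrix.charpoly_monic _
  have hsp := IsAlgClosed.splits P
  have hcard : Multiset.card P.roots = r := by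
    have h2 := hsp.natDegree_eq_card_roots
    rw [hP, Matrix.charpoly_natDegree_eq_dim, Fintype.card_fin] at h2
    exact h2.symm
  obtain ⟨l, hl⟩ := Quot.exists_rep P.roots
  have hl' : (l : Multiset (AlgebraicClosure ℚ)) = P.roots := hl
  have hlen : l.length = r := by
    rw [← hcard, ← hl', Multiset.coe_card]
  have h1 : P = ∏ i : Fin r, (X - C (l.get (Fin.cast hlen.symm i))) := by
    have h2 := hsp.eq_prod_roots
    rw [hPm.leadingCoeff, C_1, one_mul, ← hl', Multiset.map_coe, Multiset.prod_coe] at h2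
    conv_lhs => rw [h2]
    rw [← Fin.prod_univ_fun_getElem l (fun a => X - C a)]
    refine Fintype.prod_equiv (finCongr hlen) _ _ fun i => ?_
    rfl
  have h2 : ∀ i : Fin r, ∃ q : ℚ, (q : AlgebraicClosure ℚ) = l.get (Fin.cast hlen.symm i) := by
    intro i
    apply h
    have h3 : l.get (Fin.cast hlen.symm i) ∈ P.roots := by
      rw [← hl']
      exact Multiset.mem_coe.mpr (List.get_mem _ _)
    exact (mem_roots hPm.ne_zero).mp h3
  choose lam hlam using h2
  refine ⟨lam, ?_⟩
  rw [h1]
  exact Finset.prod_congr rfl fun i _ => by rw [hlam]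

/-- Stable subspaces of small height modulo one prime give stable subspaces in characteristic
zero. -/
theorem stable_lift {K : Type u} [Field K] [NumberField K] {r n : ℕ} (hn : 0 < n)
    (b c : Matrix (Fin r) (Fin r) (𝓞 K)) (hb : RatEigs b) (hc : RatEigs c)
    (hbc : RatEigs (b + c)) :
    ∃ C : ℕ, ∀ (p : ℕ) (k : Type v) [Field k] [CharP k p] (φ : 𝓞 K →+* k) (s : ℕ)
      (G : Fin s → Fin r → RatFunc k), LinearIndependent (RatFunc k) G →
      Stable (Matrix.of fun i l => φ (b i l) / n) (Matrix.of fun i l => φ (c i l) / n) G →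
      (∀ j i, C * (ht (G j i) + 1) < p) →
      ∃ G' : Fin s → Fin r → RatFunc (AlgebraicClosure K),
        LinearIndependent (RatFunc (AlgebraicClosure K)) G' ∧
        Stable (Matrix.of fun i l => algebraMap K (AlgebraicClosure K) (b i l / n))
          (Matrix.of fun i l => algebraMap K (AlgebraicClosure K) (c i l / n)) G' := by
  classical
  -- the ring of definition
  have hn0 : (n : 𝓞 K) ≠ 0 := by exact_mod_cast hn.ne'
  have hnK : (n : K) ≠ 0 := by exact_mod_cast hn.ne'
  let M : Submonoid (𝓞 K) := Submonoid.powers (n : 𝓞 K)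
  have hM : M ≤ nonZeroDivisors (𝓞 K) := by
    rintro _ ⟨t, rfl⟩
    exact mem_nonZeroDivisors_of_ne_zero (pow_ne_zero t hn0)
  let R := Localization M
  have hdom : IsDomain R := IsLocalization.isDomain_localization hM
  have hgK : ∀ y : M, IsUnit (algebraMap (𝓞 K) K y) := by
    rintro ⟨_, t, rfl⟩
    show IsUnit (algebraMap (𝓞 K) K ((n : 𝓞 K) ^ t))
    rw [map_pow, map_natCast]
    exact (IsUnit.mk0 _ hnK).pow t
  let jK : R →+* K := IsLocalization.lift hgK
  have hjK : ∀ x, jK (algebraMap (𝓞 K) R x) = algebraMap (𝓞 K) K x := fun x =>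
    IsLocalization.lift_eq hgK x
  have hjKinj : Function.Injective jK := by
    rw [IsLocalization.lift_injective_iff hgK]
    intro x y
    constructor
    · intro h
      rw [IsLocalization.injective R hM h]
    · intro h
      rw [RingOfIntegers.coe_injective h]
  obtain ⟨w, hw⟩ := IsLocalization.map_units R (⟨(n : 𝓞 K), 1, pow_one _⟩ : M)
  have hw1 : (n : R) * (w⁻¹ : Rˣ) = 1 := by
    have h1 : (w : R) = (n : R) := by rw [hw]; exact map_natCast _ n
    rw [← h1]
    exact w.mul_inv
  set ν : R := ((w⁻¹ : Rˣ) : R) with hν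
  let b' : Matrix (Fin r) (Fin r) R := Matrix.of fun i l => algebraMap (𝓞 K) R (b i l) * ν
  let c' : Matrix (Fin r) (Fin r) R := Matrix.of fun i l => algebraMap (𝓞 K) R (c i l) * ν
  have hνf : ∀ {F : Type v} [Field F] (f : R →+* F), f ν = 1 / (n : F) ∧ (n : F) ≠ 0 := by
    intro F _ f
    have h1 := congrArg f hw1
    rw [map_mul, map_natCast, map_one] at h1
    have h2 : (n : F) ≠ 0 := left_ne_zero_of_mul_eq_one h1
    exact ⟨by rw [eq_div_iff h2, mul_comm]; exact h1, h2⟩
  -- exponents
  let σ : K →+* AlgebraicClosure ℚ := (IsAlgClosed.lift : K →ₐ[ℚ] AlgebraicClosure ℚ).toRingHom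
  let τ : R →+* AlgebraicClosure ℚ := σ.comp jK
  have hτinj : Function.Injective τ := σ.injective.comp hjKinj
  have hτν : τ ν = 1 / (n : AlgebraicClosure ℚ) ∧ (n : AlgebraicClosure ℚ) ≠ 0 := by
    have h1 := congrArg τ hw1
    rw [map_mul, map_natCast, map_one] at h1
    have h2 : (n : AlgebraicClosure ℚ) ≠ 0 := left_ne_zero_of_mul_eq_one h1
    exact ⟨by rw [eq_div_iff h2, mul_comm]; exact h1, h2⟩
  have hrat : ∀ (m : Matrix (Fin r) (Fin r) (𝓞 K)), RatEigs m →
      ∃ lam : Fin r → ℚ, (Matrix.of fun i l => algebraMap (𝓞 K) R (m i l) * ν :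
        Matrix (Fin r) (Fin r) R).charpoly.map τ =
          ∏ l, (X - C ((lam l : ℚ) : AlgebraicClosure ℚ)) := by
    intro m hm
    refine exps_of_rat _ τ fun β hβ => ?_
    rw [root_iff'] at hβ
    obtain ⟨x, hx, hx'⟩ := hβ
    obtain ⟨q, hq⟩ := hm σ ((n : AlgebraicClosure ℚ) * β) ((root_iff _ m _).mpr ⟨x, hx, by
      ext i
      have h1 := congrFun hx' i
      rw [Matrix.mulVec, dotProduct, Pi.smul_apply, smul_eq_mul] at h1 ⊢
      rw [mul_assoc, ← h1, Finset.mul_sum]
      refine Finset.sum_congr rfl fun l _ => ?_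
      rw [Matrix.map_apply, Matrix.map_apply, Matrix.of_apply, map_mul, hτν.1]
      have h2 : τ (algebraMap (𝓞 K) R (m i l)) = (σ.comp (algebraMap (𝓞 K) K)) (m i l) := by
        show σ (jK _) = _
        rw [hjK]
        rfl
      rw [h2]
      have h3 := hτν.2
      field_simp⟩)
    refine ⟨q / n, ?_⟩
    push_cast
    rw [hq]
    exact mul_div_cancel_left₀ _ hτν.2
  obtain ⟨lam₀, hlam₀⟩ := hrat b hb
  obtain ⟨lam₁, hlam₁⟩ := hrat c hc
  obtain ⟨lam₂, hlam₂⟩ := hrat (b + c) hbc
  set N : ℕ := (∏ l, (lam₀ l).den) * (∏ l, (lam₁ l).den) * ∏ l, (lam₂ l).den with hN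
  have hNpos : 0 < N := Nat.mul_pos (Nat.mul_pos (Finset.prod_pos fun l _ => (lam₀ l).den_pos)
    (Finset.prod_pos fun l _ => (lam₁ l).den_pos)) (Finset.prod_pos fun l _ => (lam₂ l).den_pos)
  have hint : ∀ (lam : Fin r → ℚ), (∏ l, (lam l).den) ∣ N → ∀ l, ∃ z : ℤ,
      (N : ℚ) * lam l = z := by
    intro lam hdvd l
    obtain ⟨t, ht⟩ := (Finset.dvd_prod_of_mem (fun l => (lam l).den) (Finset.mem_univ l)).trans hdvd
    refine ⟨t * (lam l).num, ?_⟩
    rw [ht]
    push_cast
    rw [mul_comm ((lam l).den : ℚ), mul_assoc, Rat.den_mul_eq_num]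
  choose a₀ ha₀ using hint lam₀ (Dvd.dvd.mul_right (Dvd.intro _ rfl) _)
  choose a₁ ha₁ using hint lam₁ (Dvd.dvd.mul_right (Dvd.intro_left _ rfl) _)
  choose a₂ ha₂ using hint lam₂ (Dvd.intro_left _ rfl)
  have hred : ∀ (m : Matrix (Fin r) (Fin r) (𝓞 K)) (lam : Fin r → ℚ) (a : Fin r → ℤ),
      (Matrix.of fun i l => algebraMap (𝓞 K) R (m i l) * ν :
        Matrix (Fin r) (Fin r) R).charpoly.map τ =
          ∏ l, (X - C ((lam l : ℚ) : AlgebraicClosure ℚ)) → (∀ l, (N : ℚ) * lam l = a l) →
      ∀ {F : Type v} [Field F] (f : R →+* F), RedExp N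
        ((Matrix.of fun i l => algebraMap (𝓞 K) R (m i l) * ν :
          Matrix (Fin r) (Fin r) R).map f).charpoly a := by
    intro m lam a h1 h2 F _ f
    have hcl := clear τ hτinj (I := (Matrix.of fun i l => algebraMap (𝓞 K) R (m i l) * ν :
        Matrix (Fin r) (Fin r) R).charpoly) (u := 1) (lam := lam) (N₀ := N) (a := a) (by
      rw [h1]
      simp) h2
    have h3 := congrArg (Polynomial.map f) hcl
    rw [map_one, one_mul, Polynomial.map_mul, map_C, map_pow, map_natCast,
      Polynomial.map_prod] at h3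
    unfold RedExp
    rw [Matrix.charpoly_map, h3]
    refine Finset.prod_congr rfl fun l _ => ?_
    simp
  set mu : Fin 2 → Fin r → ℤ := ![a₀, a₁] with hmu
  set A : ℕ := ∑ j, ∑ l, (mu j l).natAbs + ∑ l, (a₂ l).natAbs with hA
  -- lifting
  let E := AlgebraicClosure K
  let ι : R →+* E := (algebraMap K E).comp jK
  have hι : Function.Injective ι := (algebraMap K E).injective.comp hjKinj
  choose d hd hlift using fun s : ℕ => hasInv_lift.{u, u, v} (n := r) s (s * A) (2 - 1 + s * A) ι hι
    (![0, 1] : Fin 2 → R) (bm b' c')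
  have hd' : ∀ s, ∃ x : 𝓞 K, x ≠ 0 ∧ ∃ y : M, d s * algebraMap (𝓞 K) R y =
      algebraMap (𝓞 K) R x := by
    intro s
    obtain ⟨⟨x, y⟩, hxy⟩ := IsLocalization.surj M (d s)
    refine ⟨x, ?_, y, hxy⟩
    rintro rfl
    rw [map_zero] at hxy
    rcases mul_eq_zero.mp hxy with h1 | h1
    · exact hd s h1
    · have h2 := (IsLocalization.map_units R y).ne_zero
      exact h2 h1
  choose x hx y hxy using hd'
  refine ⟨∑ s ∈ Finset.range (r + 1), (Algebra.norm ℤ (x s)).natAbs + n + N * (r * (r * r)) +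
    r * A + 1, ?_⟩
  intro p k _ _ φ s G hG hst hht
  rcases Nat.eq_zero_or_pos s with hs | hs
  · subst hs
    exact ⟨fun j => j.elim0, linearIndependent_empty_type, fun j => j.elim0⟩
  have hsr : s ≤ r := by
    have := hG.fintype_card_le_finrank
    simpa using this
  have hr : 0 < r := by omega
  -- the height
  have hne : (Finset.univ : Finset (Fin s × Fin r)).Nonempty :=
    ⟨(⟨0, hs⟩, ⟨0, hr⟩), Finset.mem_univ _⟩
  obtain ⟨j₀, _, hj₀⟩ := Finset.exists_mem_eq_sup _ hne fun j => ht (G j.1 j.2)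
  set h₀ := Finset.univ.sup fun j : Fin s × Fin r => ht (G j.1 j.2) with hh₀
  have hht' := hht j₀.1 j₀.2
  rw [← hj₀] at hht'
  have hle : ∀ j i, ht (G j i) ≤ h₀ := fun j i =>
    Finset.le_sup (f := fun j : Fin s × Fin r => ht (G j.1 j.2)) (Finset.mem_univ (j, i))
  have hpC : ∑ s ∈ Finset.range (r + 1), (Algebra.norm ℤ (x s)).natAbs + n + N * (r * (r * r)) +
      r * A + 1 < p := lt_of_le_of_lt (Nat.le_mul_of_pos_right _ (Nat.succ_pos _)) hht'
  have hxs : (Algebra.norm ℤ (x s)).natAbs < p := by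
    have := Finset.single_le_sum (f := fun s => (Algebra.norm ℤ (x s)).natAbs)
      (fun _ _ => Nat.zero_le _) (Finset.mem_range.mpr (by omega : s < r + 1))
    omega
  -- the algebraically closed field
  let k' := AlgebraicClosure k
  have hchar : CharP k' p := charP_of_injective_algebraMap (algebraMap k k').injective p
  have hnk : (n : k) ≠ 0 := by
    rw [ne_eq, CharP.cast_eq_zero_iff k p]
    intro h1
    exact absurd (Nat.le_of_dvd hn h1) (by omega)
  have hgk : ∀ y : M, IsUnit (φ y) := by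
    rintro ⟨_, t, rfl⟩
    show IsUnit (φ ((n : 𝓞 K) ^ t))
    rw [map_pow, map_natCast]
    exact (IsUnit.mk0 _ hnk).pow t
  let φ₁ : R →+* k := IsLocalization.lift hgk
  have hφ₁ : ∀ z, φ₁ (algebraMap (𝓞 K) R z) = φ z := fun z => IsLocalization.lift_eq hgk z
  let θ : k →+* k' := algebraMap k k'
  let φ' : R →+* k' := θ.comp φ₁
  have hφ₁ν := (hνf φ₁).1
  -- the polynomial frame
  let D : k[X] := ∏ j : Fin s × Fin r, (G j.1 j.2).denom
  let Nf : Fin s → Fin r → k[X] := fun j i =>
    (G j i).num * ∏ t ∈ Finset.univ.erase (j, i), (G t.1 t.2).denom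
  have hinjk : Function.Injective (algebraMap k[X] (RatFunc k)) := IsFractionRing.injective _ _
  have hD0 : D ≠ 0 := Finset.prod_ne_zero_iff.mpr fun j _ => RatFunc.denom_ne_zero _
  have hNf : ∀ j i, algebraMap k[X] (RatFunc k) (Nf j i) =
      algebraMap k[X] (RatFunc k) D * G j i := by
    intro j i
    have h1 : D = (G j i).denom * ∏ t ∈ Finset.univ.erase (j, i), (G t.1 t.2).denom :=
      (Finset.mul_prod_erase _ (fun t : Fin s × Fin r => (G t.1 t.2).denom)
        (Finset.mem_univ (j, i))).symm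
    have h2 := RatFunc.num_div_denom (G j i)
    have h3 : algebraMap k[X] (RatFunc k) (G j i).denom ≠ 0 := by
      rw [ne_eq, map_eq_zero_iff _ hinjk]
      exact RatFunc.denom_ne_zero _
    rw [div_eq_iff h3] at h2
    rw [h1, map_mul, map_mul, h2]
    ring
  have hNdeg : ∀ j i, (Nf j i).natDegree ≤ s * r * h₀ := by
    intro j i
    refine natDegree_mul_le.trans ?_
    have h1 : (G j i).num.natDegree ≤ h₀ := (le_max_left _ _).trans (hle j i)
    have h2 : (∏ t ∈ Finset.univ.erase (j, i), (G t.1 t.2).denom).natDegree ≤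
        (s * r - 1) * h₀ := by
      refine (natDegree_prod_le _ _).trans ?_
      refine (Finset.sum_le_card_nsmul _ _ h₀ fun t _ =>
        (le_max_right _ _).trans (hle t.1 t.2)).trans ?_
      rw [Finset.card_erase_of_mem (Finset.mem_univ _), Finset.card_univ, Fintype.card_prod,
        Fintype.card_fin, Fintype.card_fin, smul_eq_mul]
    have h3 : s * r * h₀ = h₀ + (s * r - 1) * h₀ := by
      obtain ⟨t, ht⟩ : ∃ t, s * r = t + 1 := ⟨s * r - 1, by
        have := Nat.mul_pos hs hr
        omega⟩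
      rw [ht, Nat.add_sub_cancel]
      ring
    omega
  have hBk : ∀ m : Matrix (Fin r) (Fin r) (𝓞 K),
      (Matrix.of fun i l => algebraMap (𝓞 K) R (m i l) * ν : Matrix (Fin r) (Fin r) R).map φ' =
        (Matrix.of fun i l => φ (m i l) / (n : k)).map θ := by
    intro m
    ext i l
    rw [Matrix.map_apply, Matrix.map_apply, Matrix.of_apply, Matrix.of_apply]
    show θ (φ₁ _) = _
    rw [map_mul, hφ₁, hφ₁ν, mul_one_div]
  have hα : (fun j => φ' ((![0, 1] : Fin 2 → R) j)) = ![0, 1] := by
    funext j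
    fin_cases j <;> simp
  have hαE : (fun j => ι ((![0, 1] : Fin 2 → R) j)) = ![0, 1] := by
    funext j
    fin_cases j <;> simp
  have hindN : ∀ c : Fin s → RatFunc k,
      (∀ i, ∑ j, c j * algebraMap k[X] (RatFunc k) (Nf j i) = 0) → c = 0 := by
    intro c hc
    have h1 := Fintype.linearIndependent_iff.mp hG c (by
      funext i
      rw [Finset.sum_apply, Pi.zero_apply]
      have h2 := hc i
      have hDL : algebraMap k[X] (RatFunc k) D ≠ 0 := by
        rw [ne_eq, map_eq_zero_iff _ hinjk]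
        exact hD0
      apply mul_left_cancel₀ hDL
      rw [mul_zero, ← h2, Finset.mul_sum]
      refine Finset.sum_congr rfl fun j _ => ?_
      rw [hNf, Pi.smul_apply, smul_eq_mul]
      ring)
    funext j
    exact h1 j
  have hinv : HasInv (![0, 1] : Fin 2 → k') ((bm b' c').map (Polynomial.map φ')) s (s * A)
      (2 - 1 + s * A) := by
    rw [bm_map, hBk, hBk]
    obtain ⟨g, Λ, h1, h2, h3, h4⟩ := bound (p := p) (by norm_num : 0 < 2)
      (inj01 (k := k')) (wdeg01 _ _) hNpos (mu := mu) (mu' := a₂) (A := A) (s := s)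
      (B := bm ((Matrix.of fun i l => φ (b i l) / (n : k)).map θ)
        ((Matrix.of fun i l => φ (c i l) / (n : k)).map θ))
      (fun j => by
        fin_cases j
        · show RedExp N (resMat ![0, 1] _ 0).charpoly a₀
          rw [res0, ← hBk]
          exact hred b lam₀ a₀ hlam₀ ha₀ φ'
        · show RedExp N (resMat ![0, 1] _ 1).charpoly a₁
          rw [res1, ← hBk]
          exact hred c lam₁ a₁ hlam₁ ha₁ φ')
      (by
        rw [inf01, ← Matrix.map_add (f := θ) (hf := map_add θ)]
        have h5 : (Matrix.of fun i l => φ (b i l) / (n : k)) +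
            (Matrix.of fun i l => φ (c i l) / (n : k)) =
            Matrix.of fun i l => φ ((b + c) i l) / (n : k) := by
          ext i l
          simp only [Matrix.add_apply, Matrix.of_apply, map_add, add_div]
        rw [h5, ← hBk]
        exact hred (b + c) lam₂ a₂ hlam₂ ha₂ φ')
      hA.ge (fun j i => (Nf j i).map θ) (indep_poly_map θ hindN)
      (fun j => by
        have h5 := sat_map θ (stable_sat hst hD0 hNf j)
        have h6 : nab ![0, 1] (bm ((Matrix.of fun i l => φ (b i l) / (n : k)).map θ)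
            ((Matrix.of fun i l => φ (c i l) / (n : k)).map θ)) (fun i => (Nf j i).map θ) =
            fun i => (nab ![0, 1] (bm (Matrix.of fun i l => φ (b i l) / (n : k))
              (Matrix.of fun i l => φ (c i l) / (n : k))) (Nf j) i).map θ := by
          funext i
          exact (nab_map θ _ _ (Nf j) i).symm
        rw [h6]
        exact h5)
      (s * r * h₀) (fun j i t ht => by
        apply coeff_eq_zero_of_natDegree_lt
        refine lt_of_le_of_lt (natDegree_map_le.trans (hNdeg j i)) ?_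
        simpa using ht) (by
        refine lt_of_le_of_lt ?_ hht'
        have h5 : s * (s * r * h₀) ≤ r * (r * r) * (h₀ + 1) := by
          calc s * (s * r * h₀) ≤ r * (r * r * (h₀ + 1)) := by gcongr; omega
            _ = _ := by ring
        have h6 : N * (s * (s * r * h₀)) ≤ N * (r * (r * r)) * (h₀ + 1) := by
          calc _ ≤ N * (r * (r * r) * (h₀ + 1)) := Nat.mul_le_mul_left _ h5
            _ = _ := by ring
        have h7 : s * A ≤ r * A * (h₀ + 1) :=
          (Nat.mul_le_mul_right A hsr).trans (Nat.le_mul_of_pos_right _ (Nat.succ_pos _))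
        calc _ ≤ N * (r * (r * r)) * (h₀ + 1) + r * A * (h₀ + 1) := Nat.add_le_add h6 h7
          _ = (N * (r * (r * r)) + r * A) * (h₀ + 1) := by ring
          _ ≤ _ := Nat.mul_le_mul_right _ (by omega))
    exact ⟨g, Λ, fun j i => ((h1 j).natDegree_le i).trans (Nat.sub_le _ _), h2, h3, h4⟩
  have hφd : φ' (d s) ≠ 0 := by
    intro h0
    have h1 := congrArg φ' (hxy s)
    rw [map_mul, h0, zero_mul] at h1
    have h2 : φ' (algebraMap (𝓞 K) R (x s)) = θ (φ (x s)) := by
      show θ (φ₁ _) = _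
      rw [hφ₁]
    rw [h2] at h1
    have h3 : φ (x s) = 0 := (map_eq_zero θ).mp h1.symm
    exact phi_ne (hx s) φ hxs h3
  have hE := hlift s k' φ' hφd (by rw [hα]; exact hinv)
  rw [hαE, bm_map] at hE
  obtain ⟨G', hG1, hG2⟩ := stable_of_inv hE
  refine ⟨G', hG1, ?_⟩
  have hBE : ∀ m : Matrix (Fin r) (Fin r) (𝓞 K),
      (Matrix.of fun i l => algebraMap (𝓞 K) R (m i l) * ν : Matrix (Fin r) (Fin r) R).map ι =
        Matrix.of fun i l => algebraMap K E ((m i l : K) / n) := by
    intro m
    ext i l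
    rw [Matrix.map_apply, Matrix.of_apply, Matrix.of_apply]
    show algebraMap K E (jK _) = _
    have h1 := congrArg jK hw1
    rw [map_mul, map_natCast, map_one] at h1
    have h2 : jK ν = 1 / (n : K) := by
      rw [eq_div_iff hnK, mul_comm]; exact h1
    rw [map_mul, hjK, h2, mul_one_div]
  have h1 : b'.map ι = Matrix.of fun i l => algebraMap K E ((b i l : K) / n) := hBE b
  have h2 : c'.map ι = Matrix.of fun i l => algebraMap K E ((c i l : K) / n) := hBE c
  rw [h1, h2] at hG2
  exact hG2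

end Pool.Agent.X98.FL
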