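import Pool.Agent.X98.FL.Final
import Pool.Agent.X98.SY.Zero

set_option autoImplicit false

open Polynomial NumberField

namespace Pool.Agent.X98.FL

open Pool.Agent.W432.PC (T Tc T_eq T_monic T_ne T_natDegree T_map ddx ddx_algebraMap)
open Pool.Agent.W432.WB (resMat infMat RedExp WDeg)
open Pool.Agent.X98.PC (ddxHom ddxHom_mul ddxHom_eq ddxHom_algebraMap clear)
open Pool.Agent.X98.SY (ht RatEigs phi_ne root_iff)

universe u v

/-- The subspace spanned by the vectors `G j` of `k(t) ^ r` is stable under the operator
`d / dt - (B / t + C / (t - 1))`. -/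
def Stable {k : Type*} [Field k] {r s : ℕ} (B C : Matrix (Fin r) (Fin r) k)
    (G : Fin s → Fin r → RatFunc k) : Prop :=
  ∀ j, (fun i => ddx k (G j i) -
    ∑ l, (RatFunc.C (B i l) / RatFunc.X + RatFunc.C (C i l) / (RatFunc.X - 1)) * G j l) ∈
      Submodule.span (RatFunc k) (Set.range G)

/-- The polynomial matrix of the system. -/
noncomputable def bm {S : Type*} [CommRing S] {r : ℕ} (B C : Matrix (Fin r) (Fin r) S) :
    Matrix (Fin r) (Fin r) S[X] :=
  Matrix.of fun i l => (X - 1) * Polynomial.C (B i l) + X * Polynomial.C (C i l)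

lemma bm_map {S S' : Type*} [CommRing S] [CommRing S'] (f : S →+* S') {r : ℕ}
    (B C : Matrix (Fin r) (Fin r) S) :
    (bm B C).map (Polynomial.map f) = bm (B.map f) (C.map f) := by
  ext1 i l
  simp [bm]

section

variable {k : Type*} [Field k] {r s : ℕ}

lemma T01 : T (![0, 1] : Fin 2 → k) = X * (X - 1) := by
  unfold T
  rw [Fin.prod_univ_two]
  simp

lemma Tc0 : (Tc (![0, 1] : Fin 2 → k) 0) = X - 1 := by
  unfold Tc
  rw [show (Finset.univ : Finset (Fin 2)).erase 0 = {1} by decide, Finset.prod_singleton]
  simp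

lemma Tc1 : (Tc (![0, 1] : Fin 2 → k) 1) = X := by
  unfold Tc
  rw [show (Finset.univ : Finset (Fin 2)).erase 1 = {0} by decide, Finset.prod_singleton]
  simp

lemma inj01 : Function.Injective (![0, 1] : Fin 2 → k) := by
  intro a b hab
  fin_cases a <;> fin_cases b <;> simp at hab ⊢

lemma res0 (B C : Matrix (Fin r) (Fin r) k) : resMat ![0, 1] (bm B C) 0 = B := by
  ext i l
  simp [resMat, bm, Tc0]

lemma res1 (B C : Matrix (Fin r) (Fin r) k) : resMat ![0, 1] (bm B C) 1 = C := by
  ext i l
  simp [resMat, bm, Tc1]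

lemma inf01 (B C : Matrix (Fin r) (Fin r) k) : infMat 2 (bm B C) (fun _ => 0) = B + C := by
  ext i l
  simp only [infMat, Matrix.of_apply, bm, Nat.cast_zero, ite_self, add_zero, Matrix.add_apply,
    pow_one]
  have h1 : X * ((X - 1) * Polynomial.C (B i l) + X * Polynomial.C (C i l)) =
      Polynomial.C (B i l + C i l) * X ^ 2 - Polynomial.C (B i l) * X ^ 1 := by
    rw [Polynomial.C_add]; ring
  rw [h1, coeff_sub, coeff_C_mul_X_pow, coeff_C_mul_X_pow]
  simp

lemma wdeg01 (B C : Matrix (Fin r) (Fin r) k) : WDeg 2 (bm B C) (fun _ => 0) := by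
  intro i l
  simp only [bm, Matrix.of_apply, add_zero, pow_one]
  refine natDegree_mul_le.trans ?_
  rw [natDegree_X]
  have h1 : ((X - 1) * Polynomial.C (B i l) + X * Polynomial.C (C i l)).natDegree ≤ 1 := by
    refine (natDegree_add_le _ _).trans (max_le ?_ ?_)
    · refine natDegree_mul_le.trans ?_
      rw [natDegree_C, add_zero]
      exact (natDegree_X_sub_C (1 : k)).le
    · refine natDegree_mul_le.trans ?_
      rw [natDegree_C, add_zero, natDegree_X]
  omega

/-- Clearing denominators. -/
lemma clear_fam {J : Type*} [Fintype J] (a : J → RatFunc k) : ∃ (q : k[X]) (w : J → k[X]), q ≠ 0 ∧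
    ∀ j, algebraMap k[X] (RatFunc k) (w j) = algebraMap k[X] (RatFunc k) q * a j := by
  classical
  obtain ⟨q, hq⟩ := IsLocalization.exist_integer_multiples_of_finset (nonZeroDivisors k[X])
    (Finset.univ.image a)
  have h1 : ∀ j, ∃ w : k[X], algebraMap k[X] (RatFunc k) w =
      algebraMap k[X] (RatFunc k) q * a j := by
    intro j
    obtain ⟨w, hw⟩ := hq (a j) (Finset.mem_image.mpr ⟨j, Finset.mem_univ _, rfl⟩)
    exact ⟨w, by rw [hw, Algebra.smul_def]⟩
  choose w hw using h1
  exact ⟨q, w, nonZeroDivisors.ne_zero q.2, hw⟩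

/-- Stable subspaces in terms of polynomials. -/
lemma stable_sat {B C : Matrix (Fin r) (Fin r) k} {G : Fin s → Fin r → RatFunc k}
    (hG : Stable B C G) {D : k[X]} (hD : D ≠ 0) {N : Fin s → Fin r → k[X]}
    (hN : ∀ j i, algebraMap k[X] (RatFunc k) (N j i) = algebraMap k[X] (RatFunc k) D * G j i)
    (j : Fin s) : nab ![0, 1] (bm B C) (N j) ∈ sat N := by
  classical
  have hinj : Function.Injective (algebraMap k[X] (RatFunc k)) := IsFractionRing.injective _ _
  set L := algebraMap k[X] (RatFunc k) with hL
  obtain ⟨a, ha⟩ := (Submodule.mem_span_range_iff_exists_fun (RatFunc k)).mp (hG j)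
  have hXL : L X = RatFunc.X := RatFunc.algebraMap_X
  have hX0 : (RatFunc.X : RatFunc k) ≠ 0 := RatFunc.X_ne_zero
  have hX1 : (RatFunc.X - 1 : RatFunc k) ≠ 0 := SY.X1_ne
  have hDL : L D ≠ 0 := by
    rw [ne_eq, map_eq_zero_iff _ hinj]
    exact hD
  -- the equation over the field
  have heq : ∀ i, L (nab ![0, 1] (bm B C) (N j) i) =
      ∑ l, (-(L (X * (X - 1)) * a l) - (if l = j then L (X * (X - 1)) * L (derivative D) / L D
        else 0)) * L (N l i) := by
    intro i
    have h1 : L (derivative (N j i)) = L (derivative D) * G j i + L D * ddx k (G j i) := by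
      have h2 := congrArg (ddxHom k) (hN j i)
      rw [ddxHom_algebraMap, ddxHom_mul, ddxHom_algebraMap, ddxHom_eq] at h2
      rw [hL, h2]
      ring
    have h2 : ∑ l, a l * G l i = ddx k (G j i) -
        ∑ l, (RatFunc.C (B i l) / RatFunc.X + RatFunc.C (C i l) / (RatFunc.X - 1)) * G j l := by
      have := congrFun ha i
      rw [Finset.sum_apply] at this
      exact this
    have h3 : L ((bm B C).mulVec (N j) i) = L (X * (X - 1)) * L D *
        ∑ l, (RatFunc.C (B i l) / RatFunc.X + RatFunc.C (C i l) / (RatFunc.X - 1)) * G j l := by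
      rw [Matrix.mulVec, dotProduct, map_sum, Finset.mul_sum]
      refine Finset.sum_congr rfl fun l _ => ?_
      simp only [bm, Matrix.of_apply, map_mul, map_add, map_sub, map_one, hXL, hN j l]
      have h4 : ∀ x : k, L (Polynomial.C x) = RatFunc.C x := fun x => RatFunc.algebraMap_C x
      rw [h4, h4]
      field_simp
    have h4 : ∑ l, (-(L (X * (X - 1)) * a l) -
        (if l = j then L (X * (X - 1)) * L (derivative D) / L D else 0)) * L (N l i) =
        -(L (X * (X - 1)) * L D * ∑ l, a l * G l i) - L (X * (X - 1)) * L (derivative D) * G j i := by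
      simp only [sub_mul, Finset.sum_sub_distrib]
      congr 1
      · rw [Finset.mul_sum, ← Finset.sum_neg_distrib]
        refine Finset.sum_congr rfl fun l _ => ?_
        rw [hN]
        ring
      · rw [Finset.sum_eq_single j]
        · rw [if_pos rfl, hN]
          field_simp
        · intro l _ hl
          rw [if_neg hl, zero_mul]
        · intro h; exact absurd (Finset.mem_univ _) h
    rw [h4, h2, nab, map_sub, h3, T01, map_mul L _ (derivative (N j i)), h1]
    ring
  obtain ⟨q, w, hq, hw⟩ := clear_fam (fun l => -(L (X * (X - 1)) * a l) -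
    (if l = j then L (X * (X - 1)) * L (derivative D) / L D else 0))
  refine ⟨q, hq, w, ?_⟩
  ext1 i
  apply hinj
  rw [Pi.smul_apply, smul_eq_mul, Finset.sum_apply]
  have h1 := heq i
  rw [map_mul, h1, map_sum, Finset.mul_sum]
  refine Finset.sum_congr rfl fun l _ => ?_
  have hw' : L (w l) = L q * (-(L (X * (X - 1)) * a l) -
      if l = j then L (X * (X - 1)) * L (derivative D) / L D else 0) := hw l
  rw [Pi.smul_apply, smul_eq_mul, map_mul L (w l), hw']
  ring

/-- Independence is preserved by extension of the field of constants. -/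
lemma indep_poly_map {K' : Type*} [Field K'] (f : k →+* K') {N : Fin s → Fin r → k[X]}
    (hN : ∀ c : Fin s → RatFunc k,
      (∀ i, ∑ j, c j * algebraMap k[X] (RatFunc k) (N j i) = 0) → c = 0) :
    LinearIndependent K'[X] (fun j i => (N j i).map f) := by
  classical
  have hinj : Function.Injective (algebraMap k[X] (RatFunc k)) := IsFractionRing.injective _ _
  obtain ⟨A, hA⟩ := exists_dual hN
  obtain ⟨q, w, hq, hw⟩ := clear_fam (fun x : Fin s × Fin r => A x.1 x.2)
  have h1 : ∀ j j', ∑ i, w (j, i) * N j' i = if j = j' then q else 0 := by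
    intro j j'
    apply hinj
    rw [map_sum]
    have h2 : ∑ i, algebraMap k[X] (RatFunc k) (w (j, i) * N j' i) =
        algebraMap k[X] (RatFunc k) q * ∑ i, A j i * algebraMap k[X] (RatFunc k) (N j' i) := by
      rw [Finset.mul_sum]
      refine Finset.sum_congr rfl fun i _ => ?_
      rw [map_mul, hw]
      ring
    rw [h2, hA]
    split_ifs <;> simp
  rw [Fintype.linearIndependent_iff]
  intro c hc j
  have h2 : ∑ j', c j' * (∑ i, w (j, i) * N j' i).map f = 0 := by
    have h3 : ∀ i, ∑ j', c j' * (N j' i).map f = 0 := by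
      intro i
      have := congrFun hc i
      rw [Finset.sum_apply] at this
      exact this
    calc _ = ∑ i, (w (j, i)).map f * ∑ j', c j' * (N j' i).map f := by
          simp only [Polynomial.map_sum, Polynomial.map_mul, Finset.mul_sum]
          rw [Finset.sum_comm]
          refine Finset.sum_congr rfl fun i _ => Finset.sum_congr rfl fun j' _ => ?_
          ring
      _ = 0 := Finset.sum_eq_zero fun i _ => by rw [h3 i, mul_zero]
  rw [Finset.sum_eq_single j] at h2
  · rw [h1, if_pos rfl] at h2
    exact (mul_eq_zero.mp h2).resolve_right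
      ((Polynomial.map_ne_zero_iff f.injective).mpr hq)
  · intro j' _ hj'
    rw [h1, if_neg (Ne.symm hj'), Polynomial.map_zero, mul_zero]
  · intro h; exact absurd (Finset.mem_univ _) h

lemma nab_map {K' : Type*} [Field K'] (f : k →+* K') (B C : Matrix (Fin r) (Fin r) k)
    (g : Fin r → k[X]) (i : Fin r) :
    (nab ![0, 1] (bm B C) g i).map f =
      nab ![0, 1] (bm (B.map f) (C.map f)) (fun i => (g i).map f) i := by
  simp only [nab, T01, Matrix.mulVec, dotProduct, Polynomial.map_sub, Polynomial.map_sum,
    Polynomial.map_mul, ← derivative_map, map_X, Polynomial.map_one, bm, Matrix.of_apply,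
    Polynomial.map_add, map_C, Matrix.map_apply]

lemma sat_map {K' : Type*} [Field K'] (f : k →+* K') {N : Fin s → Fin r → k[X]}
    {x : Fin r → k[X]} (hx : x ∈ sat N) :
    (fun i => (x i).map f) ∈ sat (fun j i => (N j i).map f) := by
  obtain ⟨q, hq, u, hu⟩ := hx
  refine ⟨q.map f, (Polynomial.map_ne_zero_iff f.injective).mpr hq, fun j => (u j).map f, ?_⟩
  ext1 i
  have h1 := congrArg (Polynomial.map f) (congrFun hu i)
  rw [Finset.sum_apply, Pi.smul_apply, smul_eq_mul, Polynomial.map_mul, Polynomial.map_sum] at h1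
  rw [Finset.sum_apply, Pi.smul_apply, smul_eq_mul, h1]
  refine Finset.sum_congr rfl fun j _ => ?_
  rw [Pi.smul_apply, Pi.smul_apply, smul_eq_mul, smul_eq_mul, Polynomial.map_mul]

/-- From the data in characteristic zero to stable subspaces. -/
lemma stable_of_inv {E : Type*} [Field E] {B C : Matrix (Fin r) (Fin r) E} {c c' : ℕ}
    (h : HasInv (![0, 1] : Fin 2 → E) (bm B C) s c c') :
    ∃ G : Fin s → Fin r → RatFunc E, LinearIndependent (RatFunc E) G ∧ Stable B C G := by
  classical
  obtain ⟨g, Λ, -, -, hnab, hev⟩ := h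
  have hinj : Function.Injective (algebraMap E[X] (RatFunc E)) := IsFractionRing.injective _ _
  set L := algebraMap E[X] (RatFunc E) with hL
  have hindp : ∀ (d : ℕ) (w : Fin s → E[X]), (∀ j, (w j).natDegree ≤ d) →
      (∀ i, ∑ j, w j * g j i = 0) → w = 0 := by
    intro d
    induction d with
    | zero =>
      intro w hw hsum
      have h1 : ∀ j, w j = Polynomial.C ((w j).coeff 0) := fun j =>
        eq_C_of_natDegree_le_zero (hw j)
      have h2 := hev (fun j => (w j).coeff 0) fun i => by
        have h3 := congrArg (fun q : E[X] => q.eval 0) (hsum i)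
        simp only [eval_finsetSum, eval_mul, eval_zero] at h3
        exact (Finset.sum_congr rfl fun j _ => by rw [coeff_zero_eq_eval_zero]).trans h3
      ext1 j
      rw [h1 j]
      have h3 := congrFun h2 j
      simp only [Pi.zero_apply] at h3
      rw [h3, map_zero]
      rfl
    | succ d ih =>
      intro w hw hsum
      have h2 := hev (fun j => (w j).coeff 0) fun i => by
        have h3 := congrArg (fun q : E[X] => q.eval 0) (hsum i)
        simp only [eval_finsetSum, eval_mul, eval_zero] at h3
        exact (Finset.sum_congr rfl fun j _ => by rw [coeff_zero_eq_eval_zero]).trans h3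
      have h3 : ∀ j, ∃ z, w j = X * z := fun j => X_dvd_iff.mpr (congrFun h2 j)
      choose w' hw' using h3
      have h4 := ih w' (fun j => by
        by_cases h0 : w' j = 0
        · rw [h0]; simp
        · have := hw j
          rw [hw' j, natDegree_mul X_ne_zero h0, natDegree_X] at this
          omega) fun i => by
        apply mul_left_cancel₀ (X_ne_zero (R := E))
        rw [mul_zero, Finset.mul_sum, ← hsum i]
        exact Finset.sum_congr rfl fun j _ => by rw [hw' j]; ring
      ext1 j
      rw [hw' j, congrFun h4 j, Pi.zero_apply, mul_zero]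
  refine ⟨fun j i => L (g j i), ?_, fun j => ?_⟩
  · rw [Fintype.linearIndependent_iff]
    intro a ha
    obtain ⟨q, w, hq, hw⟩ := clear_fam a
    have h1 := hindp (Finset.univ.sup fun j => (w j).natDegree) w
      (fun j => Finset.le_sup (f := fun j => (w j).natDegree) (Finset.mem_univ j)) fun i => by
      apply hinj
      rw [map_sum, map_zero]
      have h2 : ∑ j, L (w j * g j i) = L q * ∑ j, a j * L (g j i) := by
        rw [Finset.mul_sum]
        refine Finset.sum_congr rfl fun j _ => ?_
        rw [map_mul, hL, hw]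
        ring
      have h3 : ∑ j, a j * L (g j i) = 0 := by
        have := congrFun ha i
        rw [Finset.sum_apply] at this
        exact this
      rw [h2, h3, mul_zero]
    intro j
    have h3 := hw j
    rw [congrFun h1 j, Pi.zero_apply, map_zero] at h3
    have h4 : algebraMap E[X] (RatFunc E) q ≠ 0 := by
      rw [ne_eq, map_eq_zero_iff _ hinj]
      exact hq
    exact (mul_eq_zero.mp h3.symm).resolve_left h4
  · have hX0 : (RatFunc.X : RatFunc E) ≠ 0 := RatFunc.X_ne_zero
    have hX1 : (RatFunc.X - 1 : RatFunc E) ≠ 0 := SY.X1_ne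
    have hXL : L X = RatFunc.X := RatFunc.algebraMap_X
    have h1 : (fun i => ddx E (L (g j i)) -
        ∑ l, (RatFunc.C (B i l) / RatFunc.X + RatFunc.C (C i l) / (RatFunc.X - 1)) *
          L (g j l)) = ∑ l, (-(L (Λ l j) / (RatFunc.X * (RatFunc.X - 1)))) •
            (fun i => L (g l i)) := by
      ext1 i
      rw [Finset.sum_apply]
      have h2 := congrArg L (congrFun (hnab j) i)
      rw [Finset.sum_apply, map_sum, nab, map_sub, T01, map_mul L (X * (X - 1)), map_mul L X,
        map_sub L X 1, map_one, hXL] at h2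
      have h3 : L ((bm B C).mulVec (g j) i) = RatFunc.X * (RatFunc.X - 1) *
          ∑ l, (RatFunc.C (B i l) / RatFunc.X + RatFunc.C (C i l) / (RatFunc.X - 1)) *
            L (g j l) := by
        rw [Matrix.mulVec, dotProduct, map_sum, Finset.mul_sum]
        refine Finset.sum_congr rfl fun l _ => ?_
        simp only [bm, Matrix.of_apply, map_mul, map_add, map_sub, map_one, hXL]
        have h4 : ∀ x : E, L (Polynomial.C x) = RatFunc.C x := fun x => RatFunc.algebraMap_C x
        rw [h4, h4]
        field_simp
      have h4 : ddx E (L (g j i)) = L (derivative (g j i)) := ddx_algebraMap E _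
      rw [h3] at h2
      have h5 : ∑ l, ((-(L (Λ l j) / (RatFunc.X * (RatFunc.X - 1)))) • (fun i => L (g l i))) i =
          -((∑ l, L ((Λ l j • g l) i)) / (RatFunc.X * (RatFunc.X - 1))) := by
        rw [Finset.sum_div, ← Finset.sum_neg_distrib]
        refine Finset.sum_congr rfl fun l _ => ?_
        rw [Pi.smul_apply, Pi.smul_apply, smul_eq_mul, smul_eq_mul, map_mul]
        ring
      have h6 : ∀ S L' m : RatFunc E, m ≠ 0 → L' - S = -((m * S - m * L') / m) := by
        intro S L' m hm
        field_simp
        ring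
      rw [h5, h4, ← h2]
      exact h6 _ _ _ (mul_ne_zero hX0 hX1)
    rw [h1]
    exact Submodule.sum_mem _ fun l _ => Submodule.smul_mem _ _ (Submodule.subset_span ⟨l, rfl⟩)

end

end Pool.Agent.X98.FL
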